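import Pool.Agent.Lib.MP_19f6dc_an.Positive

set_option autoImplicit false

open MeasureTheory Set
open scoped ENNReal

namespace Pool.Agent.Lib.MP_19f6dc_an

theorem exists_pos_lower {K : Set ℝ} (hK : IsCompact K) {G : ℝ → ℝ}
    (hG : ContinuousOn G K) (hpos : ∀ y ∈ K, 0 < G y) : ∃ c > 0, ∀ y ∈ K, c ≤ G y := by
  rcases K.eq_empty_or_nonempty with h | h
  · exact ⟨1, one_pos, by simp [h]⟩
  · obtain ⟨x, hx, hmin⟩ := hK.exists_isMinOn h hG
    exact ⟨G x, hpos x hx, fun y hy => hmin hy⟩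

theorem exists_eps {K : Set ℝ} (hK : IsCompact K) {H D : ℝ → ℝ}
    (hH : ContinuousOn H K) (hD : ContinuousOn D K) (h0 : ∀ y ∈ K, 0 ≤ H y)
    (hpos : ∀ y ∈ K, 0 < H y ∨ 0 < D y) :
    ∃ ε > 0, ∃ c > 0, ∀ y ∈ K, c ≤ H y + ε * D y := by
  have hK1 : IsCompact (K ∩ D ⁻¹' Iic 0) :=
    hK.of_isClosed_subset (hD.preimage_isClosed_of_isClosed hK.isClosed isClosed_Iic)
      inter_subset_left
  obtain ⟨h1, h1pos, h1le⟩ := exists_pos_lower hK1 (hH.mono inter_subset_left) (by
    rintro y ⟨hy, hDy⟩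
    rcases hpos y hy with h | h
    · exact h
    · exact absurd h (not_lt.mpr hDy))
  obtain ⟨M, hM⟩ := hK.exists_bound_of_continuousOn hD
  set M' := max M 1 with hM'
  have hM'pos : 0 < M' := lt_of_lt_of_le one_pos (le_max_right _ _)
  refine ⟨h1 / (2 * M'), by positivity, ?_⟩
  apply exists_pos_lower hK (hH.add (continuousOn_const.mul hD))
  intro y hy
  show 0 < H y + h1 / (2 * M') * D y
  rcases lt_or_ge 0 (D y) with h | h
  · have := h0 y hy
    have h2 : 0 < h1 / (2 * M') * D y := by positivity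
    linarith
  · have h2 := h1le y ⟨hy, h⟩
    have h3 : -M' ≤ D y := by
      have := hM y hy
      rw [Real.norm_eq_abs, abs_le] at this
      exact le_trans (neg_le_neg (le_max_left _ _)) this.1
    have h4 : h1 / (2 * M') * (-M') ≤ h1 / (2 * M') * D y :=
      mul_le_mul_of_nonneg_left h3 (by positivity)
    have h5 : h1 / (2 * M') * (-M') = -(h1 / 2) := by field_simp
    linarith

/-- one-step estimate -/
theorem step_le {p₀ p₁ z₀ z₁ t c Z W w w₀ w₁ : ℝ} (hp₀ : 0 ≤ p₀) (hp₁ : 0 ≤ p₁)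
    (hp : p₀ + p₁ = 1) (hz₀ : |z₀| ≤ Z) (hz₁ : |z₁| ≤ Z) (hw₀ : w₀ ≤ 0) (hw₁ : w₁ ≤ 0)
    (hw₀' : -W ≤ w₀) (hw₁' : -W ≤ w₁) (hw : w ≤ 0) (ht : 0 < t) (htZ : t * Z ≤ 1)
    (htW : t * W ≤ 1) (hc : 0 < c)
    (hcc : p₀ * z₀ + p₁ * z₁ + (p₀ * w₀ + p₁ * w₁) - w ≤ -c)
    (htM : t * (Z ^ 2 + Z * W) ≤ c / 2) :
    p₀ * Real.exp (t * z₀) * (1 + t * w₀) + p₁ * Real.exp (t * z₁) * (1 + t * w₁) ≤
      (1 - t * c / 2) * (1 + t * w) := by
  have hone : ∀ p z w : ℝ, 0 ≤ p → |z| ≤ Z → w ≤ 0 → -W ≤ w →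
      p * Real.exp (t * z) * (1 + t * w) ≤ p * (1 + t * (z + w) + t ^ 2 * (Z ^ 2 + Z * W)) := by
    intro p z w hp hz hw hw'
    have hZ : 0 ≤ Z := (abs_nonneg z).trans hz
    have htz : |t * z| ≤ 1 := by
      rw [abs_mul, abs_of_pos ht]
      exact (mul_le_mul_of_nonneg_left hz ht.le).trans htZ
    have hexp : Real.exp (t * z) ≤ 1 + t * z + (t * z) ^ 2 := by
      have := Real.abs_exp_sub_one_sub_id_le htz
      rw [abs_le] at this
      linarith [this.2]
    have hz2 : z ^ 2 ≤ Z ^ 2 := by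
      rw [← sq_abs z]
      exact pow_le_pow_left₀ (abs_nonneg z) hz 2
    have hexp' : Real.exp (t * z) ≤ 1 + t * z + t ^ 2 * Z ^ 2 := by
      refine hexp.trans ?_
      rw [mul_pow]
      gcongr
    have h1w : 0 ≤ 1 + t * w := by
      have := mul_le_mul_of_nonneg_left hw' ht.le
      linarith
    have h3 : z * w ≤ Z * W := by
      have h31 : |z * w| ≤ Z * W := by
        rw [abs_mul]
        apply mul_le_mul hz _ (abs_nonneg _) hZ
        rw [abs_le]; constructor
        · exact hw'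
        · linarith
      exact (le_abs_self _).trans h31
    calc p * Real.exp (t * z) * (1 + t * w) ≤ p * (1 + t * z + t ^ 2 * Z ^ 2) * (1 + t * w) := by
          gcongr
      _ = p * (1 + t * (z + w) + t ^ 2 * (Z ^ 2 + z * w) + t ^ 3 * Z ^ 2 * w) := by ring
      _ ≤ p * (1 + t * (z + w) + t ^ 2 * (Z ^ 2 + Z * W)) := by
          apply mul_le_mul_of_nonneg_left _ hp
          have h4 : t ^ 3 * Z ^ 2 * w ≤ 0 := mul_nonpos_of_nonneg_of_nonpos (by positivity) hw
          have h5 : t ^ 2 * (Z ^ 2 + z * w) ≤ t ^ 2 * (Z ^ 2 + Z * W) := by gcongr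
          linarith
  have e0 := hone p₀ z₀ w₀ hp₀ hz₀ hw₀ hw₀'
  have e1 := hone p₁ z₁ w₁ hp₁ hz₁ hw₁ hw₁'
  have e2 : p₀ * (1 + t * (z₀ + w₀) + t ^ 2 * (Z ^ 2 + Z * W)) +
      p₁ * (1 + t * (z₁ + w₁) + t ^ 2 * (Z ^ 2 + Z * W)) =
      1 + t * (p₀ * z₀ + p₁ * z₁ + (p₀ * w₀ + p₁ * w₁)) + t * (t * (Z ^ 2 + Z * W)) := by
    linear_combination (1 + t ^ 2 * (Z ^ 2 + Z * W)) * hp
  have e3 : t * (p₀ * z₀ + p₁ * z₁ + (p₀ * w₀ + p₁ * w₁)) ≤ t * (w - c) := by
    apply mul_le_mul_of_nonneg_left _ ht.le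
    linarith
  have e4 : t * (t * (Z ^ 2 + Z * W)) ≤ t * (c / 2) := mul_le_mul_of_nonneg_left htM ht.le
  have e5 : 0 ≤ - (t ^ 2 * c / 2 * w) := by
    rw [neg_nonneg]
    exact mul_nonpos_of_nonneg_of_nonpos (by positivity) hw
  nlinarith

variable {lam gam q : ℝ}

theorem h_eq_binEntropy (p : ℝ) : h p = Real.binEntropy p := by
  unfold h Real.binEntropy
  rw [Real.log_inv, Real.log_inv]
  ring

/-- the quadratic weight -/
def WW (a b y : ℝ) : ℝ := -((y - a) * (b - y))

theorem WW_nonpos {a b y : ℝ} (hy : y ∈ Icc a b) : WW a b y ≤ 0 := by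
  unfold WW
  rw [neg_nonpos]
  exact mul_nonneg (by linarith [hy.1]) (by linarith [hy.2])

theorem WW_ge {a b y : ℝ} (hy : y ∈ Icc a b) : -(b - a) ^ 2 ≤ WW a b y := by
  unfold WW
  have h1 := hy.1
  have h2 := hy.2
  nlinarith [mul_nonneg (sub_nonneg.mpr h1) (sub_nonneg.mpr h2)]

theorem continuousOn_P0 (hgam : 1 < gam) {a b : ℝ} (ha : -1 < a) :
    ContinuousOn (P0 gam) (Icc a b) := by
  unfold P0
  refine ContinuousOn.div (by fun_prop) (by fun_prop) fun y hy => ?_
  have := hy.1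
  linarith

theorem continuousOn_P1 (hgam : 1 < gam) {a b : ℝ} (ha : -1 < a) :
    ContinuousOn (P1 gam) (Icc a b) := by
  unfold P1
  refine ContinuousOn.div (by fun_prop) (by fun_prop) fun y hy => ?_
  have := hy.1
  linarith

theorem continuousOn_T1 (hgam : 1 < gam) {a b : ℝ} (ha : -1 < a) :
    ContinuousOn (T1 gam q) (Icc a b) := by
  unfold T1
  refine ContinuousOn.div (by fun_prop) (by fun_prop) fun y hy => ?_
  have := hy.1
  linarith

theorem geom_decay (hlam : 0 < lam) (hgam : 1 < gam) (hq : 0 < q) {a b θ : ℝ} (ha : -1 < a)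
    (h0 : (0:ℝ) ∈ Icc a b) (hT0 : ∀ y ∈ Icc a b, T0 lam gam y ∈ Icc a b)
    (hT1 : ∀ y ∈ Icc a b, T1 gam q y ∈ Icc a b) (hθ0 : 0 ≤ θ)
    (hθ : ∀ y ∈ Icc a b, θ ≤ h (P0 gam y))
    (hND : ∀ y ∈ Icc a b, θ < h (P0 gam y) ∨ 0 < WW a b y -
      (P0 gam y * WW a b (T0 lam gam y) + P1 gam y * WW a b (T1 gam q y))) :
    ∃ t, 0 < t ∧ t ≤ 1 ∧ ∃ ρ, 0 ≤ ρ ∧ ρ < 1 ∧ ∃ C, 0 ≤ C ∧ ∀ n : ℕ,
      ∑ k ∈ Finset.range (2 ^ n), ms lam gam q n k *
        Real.exp (t * (n * θ + Real.log (ms lam gam q n k))) ≤ C * ρ ^ n := by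
  have hcW : Continuous (WW a b) := by unfold WW; fun_prop
  have hcP0 := continuousOn_P0 (b := b) hgam ha
  have hcP1 := continuousOn_P1 (b := b) hgam ha
  have hcT1 := continuousOn_T1 (q := q) (b := b) hgam ha
  have hcT0 : Continuous (T0 lam gam) := by unfold T0; fun_prop
  have hcomp : IsCompact (Icc a b) := isCompact_Icc
  obtain ⟨ε, hε, c, hc, hεc⟩ := exists_eps hcomp
    (H := fun y => h (P0 gam y) - θ)
    (D := fun y => WW a b y -
      (P0 gam y * WW a b (T0 lam gam y) + P1 gam y * WW a b (T1 gam q y)))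
    (by
      simp_rw [h_eq_binEntropy]
      exact (Real.binEntropy_continuous.comp_continuousOn hcP0).sub continuousOn_const)
    (by
      refine hcW.continuousOn.sub ((hcP0.mul (hcW.comp hcT0).continuousOn).add
        (hcP1.mul (hcW.comp_continuousOn hcT1))))
    (fun y hy => sub_nonneg.mpr (hθ y hy))
    (fun y hy => (hND y hy).imp (fun h => sub_pos.mpr h) id)
  -- lower bound for the probabilities
  obtain ⟨δ0, hδ0, hδ0'⟩ := exists_pos_lower hcomp hcP0 fun y hy => P0_pos hgam (by linarith [hy.1])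
  obtain ⟨δ1, hδ1, hδ1'⟩ := exists_pos_lower hcomp hcP1 fun y hy => P1_pos hgam (by linarith [hy.1])
  set δ := min δ0 δ1 with hδdef
  have hδ : 0 < δ := lt_min hδ0 hδ1
  have hP0le : ∀ y ∈ Icc a b, P0 gam y ≤ 1 := fun y hy => by
    have h1 := P0_add_P1 hgam (show -1 < y by linarith [hy.1])
    have h2 := P1_pos hgam (show -1 < y by linarith [hy.1])
    linarith
  have hP1le : ∀ y ∈ Icc a b, P1 gam y ≤ 1 := fun y hy => by
    have h1 := P0_add_P1 hgam (show -1 < y by linarith [hy.1])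
    have h2 := P0_pos hgam (show -1 < y by linarith [hy.1])
    linarith
  set Z := θ + |Real.log δ| with hZ
  have hzbound : ∀ p : ℝ, δ ≤ p → p ≤ 1 → |θ + Real.log p| ≤ Z := by
    intro p hp1 hp2
    have hp0 : 0 < p := lt_of_lt_of_le hδ hp1
    refine (abs_add_le _ _).trans ?_
    rw [hZ, abs_of_nonneg hθ0]
    gcongr 1
    have h1 : Real.log p ≤ 0 := Real.log_nonpos hp0.le hp2
    have h2 : Real.log δ ≤ Real.log p := Real.log_le_log hδ hp1
    rw [abs_of_nonpos h1, abs_of_nonpos (h2.trans h1)]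
    linarith
  set W := ε * (b - a) ^ 2 with hW
  have hZ0 : 0 ≤ Z := by positivity
  have hW0 : 0 ≤ W := by positivity
  -- choice of t
  set Mx := Z ^ 2 + Z * W with hMx
  have hMx0 : 0 ≤ Mx := by positivity
  set t := min (min (1 / (Z + 1)) (1 / (2 * W + 1))) (min (c / (2 * (Mx + 1))) (min 1 (1 / c)))
    with ht
  have ht0 : 0 < t := by
    rw [ht]
    refine lt_min (lt_min (by positivity) (by positivity)) (lt_min (by positivity)
      (lt_min one_pos (by positivity)))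
  have ht1 : t ≤ 1 := (min_le_right _ _).trans ((min_le_right _ _).trans (min_le_left _ _))
  have htc : t * c ≤ 1 := by
    have : t ≤ 1 / c := (min_le_right _ _).trans ((min_le_right _ _).trans (min_le_right _ _))
    rwa [le_div_iff₀ hc] at this
  have htZ : t * Z ≤ 1 := by
    have h1 : t ≤ 1 / (Z + 1) := (min_le_left _ _).trans (min_le_left _ _)
    rw [le_div_iff₀ (by positivity)] at h1
    nlinarith
  have htW : t * (2 * W) ≤ 1 := by
    have h1 : t ≤ 1 / (2 * W + 1) := (min_le_left _ _).trans (min_le_right _ _)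
    rw [le_div_iff₀ (by positivity)] at h1
    nlinarith
  have htM : t * Mx ≤ c / 2 := by
    have h1 : t ≤ c / (2 * (Mx + 1)) := (min_le_right _ _).trans (min_le_left _ _)
    rw [le_div_iff₀ (by positivity)] at h1
    nlinarith
  set ρ := 1 - t * c / 2 with hρ
  have hρ0 : 0 ≤ ρ := by rw [hρ]; linarith
  have hρ1 : ρ < 1 := by
    rw [hρ]
    have : 0 < t * c := mul_pos ht0 hc
    linarith
  -- states stay in the interval
  have hst : ∀ n k, st lam gam q n k ∈ Icc a b := by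
    intro n
    induction n with
    | zero => intro k; simpa [st] using h0
    | succ n ih =>
      intro k
      rw [st]
      split_ifs
      · exact hT0 _ (ih _)
      · exact hT1 _ (ih _)
  have hu : ∀ y ∈ Icc a b, 1 / 2 ≤ 1 + t * (ε * WW a b y) := by
    intro y hy
    have h1 := WW_ge hy
    have h2 : -W ≤ ε * WW a b y := by
      have := mul_le_mul_of_nonneg_left h1 hε.le
      rw [hW]; linarith
    have h3 := mul_le_mul_of_nonneg_left h2 ht0.le
    linarith
  have hu1 : ∀ y ∈ Icc a b, 1 + t * (ε * WW a b y) ≤ 1 := by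
    intro y hy
    have h1 := WW_nonpos hy
    have h2 : t * (ε * WW a b y) ≤ 0 :=
      mul_nonpos_of_nonneg_of_nonpos ht0.le (mul_nonpos_of_nonneg_of_nonpos hε.le h1)
    linarith
  -- the decay of the weighted sums
  have hdecay : ∀ n : ℕ, ∑ k ∈ Finset.range (2 ^ n), ms lam gam q n k *
      Real.exp (t * (n * θ + Real.log (ms lam gam q n k))) *
        (1 + t * (ε * WW a b (st lam gam q n k))) ≤ ρ ^ n := by
    intro n
    induction n with
    | zero =>
      simp only [pow_zero, Finset.range_one, Finset.sum_singleton, ms, st]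
      simpa using hu1 0 h0
    | succ n ih =>
      rw [sum_level_succ, pow_succ ρ n, mul_comm (ρ ^ n) ρ]
      refine le_trans ?_ (mul_le_mul_of_nonneg_left ih hρ0)
      rw [Finset.mul_sum]
      refine Finset.sum_le_sum fun k _ => ?_
      rw [ms_even, ms_odd, st_even, st_odd]
      set y := st lam gam q n k with hy
      set m := ms lam gam q n k with hm
      have hyI : y ∈ Icc a b := hst n k
      have hy1 : -1 < y := by linarith [hyI.1]
      have hmpos : 0 < m := ms_pos hlam hgam hq n k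
      have hp0 := P0_pos hgam hy1
      have hp1 := P1_pos hgam hy1
      have hp := P0_add_P1 hgam hy1
      have hstep := step_le (p₀ := P0 gam y) (p₁ := P1 gam y)
        (z₀ := θ + Real.log (P0 gam y)) (z₁ := θ + Real.log (P1 gam y)) (t := t) (c := c)
        (Z := Z) (W := W) (w := ε * WW a b y) (w₀ := ε * WW a b (T0 lam gam y))
        (w₁ := ε * WW a b (T1 gam q y)) hp0.le hp1.le hp
        (hzbound _ ((min_le_left _ _).trans (hδ0' y hyI)) (hP0le y hyI))
        (hzbound _ ((min_le_right _ _).trans (hδ1' y hyI)) (hP1le y hyI))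
        (mul_nonpos_of_nonneg_of_nonpos hε.le (WW_nonpos (hT0 y hyI)))
        (mul_nonpos_of_nonneg_of_nonpos hε.le (WW_nonpos (hT1 y hyI)))
        (by have := mul_le_mul_of_nonneg_left (WW_ge (hT0 y hyI)) hε.le; rw [hW]; linarith)
        (by have := mul_le_mul_of_nonneg_left (WW_ge (hT1 y hyI)) hε.le; rw [hW]; linarith)
        (mul_nonpos_of_nonneg_of_nonpos hε.le (WW_nonpos hyI)) ht0 htZ (by linarith) hc
        (by
          have h1 := hεc y hyI
          have h2 : h (P0 gam y) = -(P0 gam y) * Real.log (P0 gam y) -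
              (P1 gam y) * Real.log (P1 gam y) := by
            unfold h
            rw [show 1 - P0 gam y = P1 gam y by linarith]
          rw [h2] at h1
          have h3 : P0 gam y * (θ + Real.log (P0 gam y)) + P1 gam y * (θ + Real.log (P1 gam y)) =
              θ + (P0 gam y * Real.log (P0 gam y) + P1 gam y * Real.log (P1 gam y)) := by
            linear_combination θ * hp
          rw [h3]
          nlinarith [h1]) htM
      have e0 : Real.exp (t * (((n + 1 : ℕ) : ℝ) * θ + Real.log (m * P0 gam y))) =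
          Real.exp (t * (n * θ + Real.log m)) * Real.exp (t * (θ + Real.log (P0 gam y))) := by
        rw [← Real.exp_add, Real.log_mul hmpos.ne' hp0.ne']
        congr 1
        push_cast
        ring
      have e1 : Real.exp (t * (((n + 1 : ℕ) : ℝ) * θ + Real.log (m * P1 gam y))) =
          Real.exp (t * (n * θ + Real.log m)) * Real.exp (t * (θ + Real.log (P1 gam y))) := by
        rw [← Real.exp_add, Real.log_mul hmpos.ne' hp1.ne']
        congr 1
        push_cast
        ring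
      rw [e0, e1]
      have hX : 0 ≤ m * Real.exp (t * (n * θ + Real.log m)) := by positivity
      have := mul_le_mul_of_nonneg_left hstep hX
      calc _ = m * Real.exp (t * (n * θ + Real.log m)) *
            (P0 gam y * Real.exp (t * (θ + Real.log (P0 gam y))) *
              (1 + t * (ε * WW a b (T0 lam gam y))) +
            P1 gam y * Real.exp (t * (θ + Real.log (P1 gam y))) *
              (1 + t * (ε * WW a b (T1 gam q y)))) := by ring
        _ ≤ _ := this
        _ = _ := by rw [hρ]; ring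
  refine ⟨t, ht0, ht1, ρ, hρ0, hρ1, 2, by norm_num, fun n => ?_⟩
  have h1 : ∑ k ∈ Finset.range (2 ^ n), ms lam gam q n k *
      Real.exp (t * (n * θ + Real.log (ms lam gam q n k))) ≤
      ∑ k ∈ Finset.range (2 ^ n), 2 * (ms lam gam q n k *
      Real.exp (t * (n * θ + Real.log (ms lam gam q n k))) *
        (1 + t * (ε * WW a b (st lam gam q n k)))) := by
    refine Finset.sum_le_sum fun k _ => ?_
    have h2 := hu _ (hst n k)
    have h3 : 0 ≤ ms lam gam q n k * Real.exp (t * (n * θ + Real.log (ms lam gam q n k))) := by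
      have := ms_pos (lam := lam) hlam hgam hq n k
      positivity
    nlinarith
  rw [← Finset.mul_sum] at h1
  linarith [hdecay n]

/-- `ℓ^t`-summability implies summability for `0 < t ≤ 1`. -/
theorem tsum_ne_top_of_rpow {t : ℝ} (ht0 : 0 < t) (ht1 : t ≤ 1) {a : ℕ → ℝ≥0∞}
    (ha : ∑' n, (a n) ^ t ≠ ⊤) : ∑' n, a n ≠ ⊤ := by
  set S := ∑' n, (a n) ^ t with hS
  have h1 : ∀ n, a n ≤ (a n) ^ t * S ^ ((1 - t) / t) := by
    intro n
    rcases eq_or_ne (a n) 0 with h0 | h0
    · rw [h0]; exact zero_le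
    · have hle : (a n) ^ t ≤ S := ENNReal.le_tsum n
      have htop : a n ≠ ⊤ := by
        intro h
        rw [h, ENNReal.top_rpow_of_pos ht0] at hle
        exact ha (top_unique hle)
      calc a n = (a n) ^ t * (a n) ^ (1 - t) := by
            rw [← ENNReal.rpow_add _ _ h0 htop, add_sub_cancel, ENNReal.rpow_one]
        _ = (a n) ^ t * ((a n) ^ t) ^ ((1 - t) / t) := by
            rw [← ENNReal.rpow_mul]
            congr 2
            field_simp
        _ ≤ (a n) ^ t * S ^ ((1 - t) / t) := by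
            have : 0 ≤ (1 - t) / t := div_nonneg (by linarith) ht0.le
            gcongr
  have h2 : ∑' n, a n ≤ S * S ^ ((1 - t) / t) := by
    calc ∑' n, a n ≤ ∑' n, (a n) ^ t * S ^ ((1 - t) / t) := ENNReal.tsum_le_tsum h1
      _ = S * S ^ ((1 - t) / t) := by rw [ENNReal.tsum_mul_right]
  refine ne_top_of_le_ne_top ?_ h2
  exact ENNReal.mul_ne_top ha
    (ENNReal.rpow_ne_top_of_nonneg (div_nonneg (by linarith) ht0.le) ha)

theorem ae_finite_of_decay (hlam : 0 < lam) (hgam : 1 < gam) (hq : 0 < q) {f : ℝ → ℝ}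
    (hf : IsDeRham lam gam q f) {μ : Measure ℝ} (hμ : IsDeRhamMeasure f μ) {θ : ℝ}
    (hdec : ∃ t, 0 < t ∧ t ≤ 1 ∧ ∃ ρ, 0 ≤ ρ ∧ ρ < 1 ∧ ∃ C, 0 ≤ C ∧ ∀ n : ℕ,
      ∑ k ∈ Finset.range (2 ^ n), ms lam gam q n k *
        Real.exp (t * (n * θ + Real.log (ms lam gam q n k))) ≤ C * ρ ^ n) :
    ∀ᵐ x ∂μ, ∑' m : ℕ, (2 : ℝ≥0∞) ^ ((m : ℝ) * (θ / Real.log 2)) *
      μ (dy m ⌊x * 2 ^ m⌋) ≠ ⊤ := by
  obtain ⟨t, ht0, ht1, ρ, hρ0, hρ1, C, hC, hdec⟩ := hdec
  have hlog : 0 < Real.log 2 := Real.log_pos (by norm_num)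
  have h2m : ∀ m : ℕ, (2 : ℝ≥0∞) ^ ((m : ℝ) * (θ / Real.log 2)) =
      ENNReal.ofReal (Real.exp (m * θ)) := by
    intro m
    have : Real.exp (m * θ) = (2 : ℝ) ^ ((m : ℝ) * (θ / Real.log 2)) := by
      rw [Real.rpow_def_of_pos (by norm_num)]
      congr 1
      field_simp
    rw [this, ← ENNReal.ofReal_rpow_of_pos (by norm_num)]
    simp
  have hmeas : ∀ m : ℕ, Measurable (fun x : ℝ => ((2 : ℝ≥0∞) ^ ((m : ℝ) * (θ / Real.log 2)) *
      μ (dy m ⌊x * 2 ^ m⌋)) ^ t) := fun m =>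
    ((measurable_cell_mass m μ).const_mul _).pow_const t
  have hint : ∀ m : ℕ, ∫⁻ x, ((2 : ℝ≥0∞) ^ ((m : ℝ) * (θ / Real.log 2)) *
      μ (dy m ⌊x * 2 ^ m⌋)) ^ t ∂μ ≤ ENNReal.ofReal (C * ρ ^ m) := by
    intro m
    rw [lintegral_cell hlam hgam hq hf hμ m
      (fun k => ((2 : ℝ≥0∞) ^ ((m : ℝ) * (θ / Real.log 2)) * μ (dy m k)) ^ t)]
    have h1 : ∀ k ∈ Finset.range (2 ^ m), ((2 : ℝ≥0∞) ^ ((m : ℝ) * (θ / Real.log 2)) *
        μ (dy m (k : ℤ))) ^ t * ENNReal.ofReal (ms lam gam q m k) =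
        ENNReal.ofReal (ms lam gam q m k *
          Real.exp (t * (m * θ + Real.log (ms lam gam q m k)))) := by
      intro k hk
      have hpos := ms_pos (lam := lam) hlam hgam hq m k
      rw [h2m, measure_dy hlam hgam hq hf hμ m k (Finset.mem_range.mp hk),
        ← ENNReal.ofReal_mul (Real.exp_pos _).le,
        ENNReal.ofReal_rpow_of_pos (mul_pos (Real.exp_pos _) hpos),
        ← ENNReal.ofReal_mul (by positivity), mul_comm]
      congr 2
      rw [Real.rpow_def_of_pos (mul_pos (Real.exp_pos _) hpos),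
        Real.log_mul (Real.exp_pos _).ne' hpos.ne', Real.log_exp]
      congr 1
      ring
    rw [Finset.sum_congr rfl h1, ← ENNReal.ofReal_sum_of_nonneg]
    · exact ENNReal.ofReal_le_ofReal (hdec m)
    · intro k _
      have hpos := ms_pos (lam := lam) hlam hgam hq m k
      positivity
  have hae : ∀ᵐ x ∂μ, ∑' m : ℕ, ((2 : ℝ≥0∞) ^ ((m : ℝ) * (θ / Real.log 2)) *
      μ (dy m ⌊x * 2 ^ m⌋)) ^ t < ⊤ := by
    refine ae_lt_top (Measurable.tsum fun m => hmeas m) ?_
    rw [lintegral_tsum fun m => (hmeas m).aemeasurable]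
    refine ne_top_of_le_ne_top ?_ (ENNReal.tsum_le_tsum hint)
    rw [← ENNReal.ofReal_tsum_of_nonneg (fun n => by positivity)]
    · exact ENNReal.ofReal_ne_top
    · exact (summable_geometric_of_lt_one hρ0 hρ1).mul_left C
  filter_upwards [hae] with x hx
  exact tsum_ne_top_of_rpow ht0 ht1 hx.ne

end Pool.Agent.Lib.MP_19f6dc_an
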