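import Pool.Agent.Lib.MP_19f6dc_an.Positive

set_option autoImplicit false

open MeasureTheory Set
open scoped ENNReal

namespace Pool.Agent.Lib.MP_19f6dc_an

variable {lam gam q : ℝ}

/-- The supersolution for the logarithmic energy. -/
noncomputable def VV (lam gam q y : ℝ) : ℝ :=
  (y + 1) / (gam - 1) + (gam - 1) / (y + 1) + (lam + q / (gam - 1)) / 2

theorem VV_pos (hlam : 0 < lam) (hgam : 1 < gam) (hq : 0 < q) {y : ℝ} (hy : -1 < y) :
    0 < VV lam gam q y := by
  have h1 : 0 < gam - 1 := by linarith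
  have h2 : 0 < y + 1 := by linarith
  unfold VV
  positivity

theorem VV_super (hlam : 1 ≤ lam) (hgam : 1 < gam) (hq : gam - 1 ≤ q) {y : ℝ} (hy : -1 < y) :
    P0 gam y ^ 2 * VV lam gam q (T0 lam gam y) + P1 gam y ^ 2 * VV lam gam q (T1 gam q y) + 1
      ≤ VV lam gam q y := by
  obtain ⟨s, hs⟩ : ∃ s, s = y + 1 := ⟨_, rfl⟩
  obtain ⟨g, hg⟩ : ∃ g, g = gam - 1 := ⟨_, rfl⟩
  have hs0 : 0 < s := by linarith
  have hg0 : 0 < g := by linarith
  have hq0 : 0 < q := by linarith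
  have hlam0 : 0 < lam := by linarith
  have hsg : y + gam = s + g := by rw [hs, hg]; ring
  have e0 : T0 lam gam y + 1 = (s + g) / lam := by
    unfold T0; rw [hs, hg]; field_simp; ring
  have hd2 : 0 < y + gam := by linarith
  have e1 : T1 gam q y + 1 = q * s / (s + g) := by
    unfold T1; rw [← hsg, hs]; field_simp; ring
  have p0 : P0 gam y = s / (s + g) := by unfold P0; rw [hsg, hs]
  have p1 : P1 gam y = g / (s + g) := by unfold P1; rw [hsg, hg]
  have hsg0 : 0 < s + g := by linarith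
  unfold VV
  rw [e0, e1, p0, p1, ← hs, ← hg]
  have key : s / g + g / s + (lam + q / g) / 2 -
      ((s / (s + g)) ^ 2 * ((s + g) / lam / g + g / ((s + g) / lam) + (lam + q / g) / 2) +
      (g / (s + g)) ^ 2 * (q * s / (s + g) / g + g / (q * s / (s + g)) + (lam + q / g) / 2) + 1) =
      (s / g + g / s + (lam + q / g) / 2) - (s ^ 2 / (lam * g * (s + g)) +
        s ^ 2 * g * lam / (s + g) ^ 3 + s ^ 2 * ((lam + q / g) / 2) / (s + g) ^ 2 +
        g * q * s / (s + g) ^ 3 + g ^ 3 / (q * s * (s + g)) +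
        g ^ 2 * ((lam + q / g) / 2) / (s + g) ^ 2 + 1) := by
    field_simp
    ring
  have h1 : s ^ 2 / (lam * g * (s + g)) ≤ s ^ 2 / (g * (s + g)) := by
    apply div_le_div_of_nonneg_left (by positivity) (by positivity)
    have : 0 < g * (s + g) := by positivity
    nlinarith
  have h2 : g ^ 3 / (q * s * (s + g)) ≤ g ^ 2 / (s * (s + g)) := by
    rw [div_le_div_iff₀ (by positivity) (by positivity)]
    have : 0 < g ^ 2 * (s * (s + g)) := by positivity
    nlinarith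
  have h3 : 0 ≤ (s / g + g / s + (lam + q / g) / 2) - (s ^ 2 / (g * (s + g)) +
        s ^ 2 * g * lam / (s + g) ^ 3 + s ^ 2 * ((lam + q / g) / 2) / (s + g) ^ 2 +
        g * q * s / (s + g) ^ 3 + g ^ 2 / (s * (s + g)) +
        g ^ 2 * ((lam + q / g) / 2) / (s + g) ^ 2 + 1) := by
    have : (s / g + g / s + (lam + q / g) / 2) - (s ^ 2 / (g * (s + g)) +
        s ^ 2 * g * lam / (s + g) ^ 3 + s ^ 2 * ((lam + q / g) / 2) / (s + g) ^ 2 +
        g * q * s / (s + g) ^ 3 + g ^ 2 / (s * (s + g)) +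
        g ^ 2 * ((lam + q / g) / 2) / (s + g) ^ 2 + 1) =
        (s ^ 2 * q + s * (lam * g ^ 2)) / (s + g) ^ 3 := by
      field_simp
      ring
    rw [this]
    positivity
  linarith

theorem sum_sq_le (hlam : 1 ≤ lam) (hgam : 1 < gam) (hq : gam - 1 ≤ q) (n : ℕ) :
    ∑ m ∈ Finset.range n, ∑ k ∈ Finset.range (2 ^ m), ms lam gam q m k ^ 2 +
      ∑ k ∈ Finset.range (2 ^ n), ms lam gam q n k ^ 2 * VV lam gam q (st lam gam q n k)
      ≤ VV lam gam q 0 := by
  have hlam0 : 0 < lam := by linarith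
  have hq0 : 0 < q := by linarith
  induction n with
  | zero => simp [ms, st]
  | succ n ih =>
    refine le_trans ?_ ih
    rw [Finset.sum_range_succ, add_assoc]
    gcongr
    rw [sum_level_succ, ← Finset.sum_add_distrib]
    refine Finset.sum_le_sum fun k _ => ?_
    rw [ms_even, ms_odd, st_even, st_odd]
    have h1 := VV_super hlam hgam hq (st_gt (lam := lam) (gam := gam) (q := q) hlam0 hgam hq0 n k)
    have h2 : 0 ≤ ms lam gam q n k ^ 2 := sq_nonneg _
    have h3 := mul_le_mul_of_nonneg_left h1 h2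
    calc _ = ms lam gam q n k ^ 2 * (P0 gam (st lam gam q n k) ^ 2 *
            VV lam gam q (T0 lam gam (st lam gam q n k)) + P1 gam (st lam gam q n k) ^ 2 *
            VV lam gam q (T1 gam q (st lam gam q n k)) + 1) := by ring
      _ ≤ _ := h3

/-- In all trapping cases the logarithmic dyadic potential of the de Rham measure is finite almost
everywhere. -/
theorem ae_finite_zero (hlam : 1 ≤ lam) (hgam : 1 < gam) (hq : gam - 1 ≤ q) {f : ℝ → ℝ}
    (hf : IsDeRham lam gam q f) {μ : Measure ℝ} (hμ : IsDeRhamMeasure f μ) :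
    ∀ᵐ x ∂μ, ∑' m : ℕ, (2 : ℝ≥0∞) ^ ((m : ℝ) * (1 - 2 * (1 / 2 : ℝ))) *
      μ (dy m ⌊x * 2 ^ m⌋) ≠ ⊤ := by
  have hlam0 : 0 < lam := by linarith
  have hq0 : 0 < q := by linarith
  have h0 : ∀ m : ℕ, (2 : ℝ≥0∞) ^ ((m : ℝ) * (1 - 2 * (1 / 2 : ℝ))) = 1 := by
    intro m; norm_num
  simp_rw [h0, one_mul]
  have hm : Measurable (fun x : ℝ => ∑' m : ℕ, μ (dy m ⌊x * 2 ^ m⌋)) :=
    Measurable.tsum fun m => measurable_cell_mass m μ
  refine (ae_lt_top hm ?_).mono fun x hx => hx.ne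
  rw [lintegral_tsum fun m => (measurable_cell_mass m μ).aemeasurable]
  have h1 : ∀ m : ℕ, ∫⁻ x, μ (dy m ⌊x * 2 ^ m⌋) ∂μ =
      ENNReal.ofReal (∑ k ∈ Finset.range (2 ^ m), ms lam gam q m k ^ 2) := by
    intro m
    rw [lintegral_cell hlam0 hgam hq0 hf hμ m (fun k => μ (dy m k)),
      ENNReal.ofReal_sum_of_nonneg fun k _ => sq_nonneg _]
    refine Finset.sum_congr rfl fun k hk => ?_
    rw [measure_dy hlam0 hgam hq0 hf hμ m k (Finset.mem_range.mp hk),
      ← ENNReal.ofReal_mul (ms_pos hlam0 hgam hq0 m k).le, sq]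
  simp_rw [h1]
  refine ne_top_of_le_ne_top (b := ENNReal.ofReal (VV lam gam q 0)) ENNReal.ofReal_ne_top ?_
  rw [ENNReal.tsum_eq_iSup_nat]
  refine iSup_le fun n => ?_
  rw [← ENNReal.ofReal_sum_of_nonneg fun m _ => Finset.sum_nonneg fun k _ => sq_nonneg _]
  apply ENNReal.ofReal_le_ofReal
  refine le_trans ?_ (sum_sq_le hlam hgam hq n)
  refine le_add_of_nonneg_right (Finset.sum_nonneg fun k _ => ?_)
  exact mul_nonneg (sq_nonneg _) (VV_pos hlam0 hgam hq0 (st_gt hlam0 hgam hq0 n k)).le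

end Pool.Agent.Lib.MP_19f6dc_an
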