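import Mathlib

/-!
# Definitions for the Mobius de Rham measures
-/

set_option autoImplicit false

open MeasureTheory Set
open scoped ENNReal

namespace Pool.Agent.Lib.MP_19f6dc_an

/-- The Mobius map `F₀(x) = x / ((γ - λ) x + λ)`. -/
noncomputable def F0 (lam gam x : ℝ) : ℝ := x / ((gam - lam) * x + lam)

/-- The Mobius map `F₁(x) = ((q - 1) x + 1) / ((q - γ) x + γ)`. -/
noncomputable def F1 (gam q x : ℝ) : ℝ := ((q - 1) * x + 1) / ((q - gam) * x + gam)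

/-- `f` is the Mobius de Rham function with parameters `(λ, γ, q)`: strictly increasing and
left-continuous on `[0,1]`, with `f 0 = 0`, `f 1 = 1`, `f(x/2) = F₀(f x)` and
`f((x+1)/2) = F₁(f x)` for `x ∈ [0,1]`. -/
structure IsDeRham (lam gam q : ℝ) (f : ℝ → ℝ) : Prop where
  strictMono : StrictMonoOn f (Icc 0 1)
  leftCont : ∀ x ∈ Icc (0 : ℝ) 1, ContinuousWithinAt f (Icc 0 x) x
  map_zero : f 0 = 0
  map_one : f 1 = 1
  eq_zero : ∀ x ∈ Icc (0 : ℝ) 1, f (x / 2) = F0 lam gam (f x)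
  eq_one : ∀ x ∈ Icc (0 : ℝ) 1, f ((x + 1) / 2) = F1 gam q (f x)

/-- `μ` is the Borel probability measure on `[0,1]` (a measure on `ℝ` carried by `[0,1]`) whose
distribution function is `f`: `f(x) = μ([0,x))` for `x ∈ [0,1]`. -/
structure IsDeRhamMeasure (f : ℝ → ℝ) (μ : Measure ℝ) : Prop where
  prob : IsProbabilityMeasure μ
  carried : μ (Icc (0 : ℝ) 1)ᶜ = 0
  cdf : ∀ x ∈ Icc (0 : ℝ) 1, μ (Ico 0 x) = ENNReal.ofReal (f x)

/-- `r₀ = (γ - λ)/(λ - 1)` if `λ ≠ 1`, and `r₀ = +∞` if `λ = 1`. -/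
noncomputable def r0 (lam gam : ℝ) : EReal :=
  if lam = 1 then ⊤ else (((gam - lam) / (lam - 1) : ℝ) : EReal)

/-- `r₁ = q - γ`. -/
noncomputable def r1 (gam q : ℝ) : EReal := ((q - gam : ℝ) : EReal)

/-- `α = min {0, r₀, r₁}`. -/
noncomputable def alpha (lam gam q : ℝ) : EReal := min 0 (min (r0 lam gam) (r1 gam q))

/-- `β = max {0, r₀, r₁}`. -/
noncomputable def beta (lam gam q : ℝ) : EReal := max 0 (max (r0 lam gam) (r1 gam q))

/-- `p₀(y) = (y + 1)/(y + γ)` for real `y`, and `p₀(+∞) = 1`. -/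
noncomputable def p0 (gam : ℝ) (y : EReal) : ℝ :=
  if y = ⊤ then 1 else (y.toReal + 1) / (y.toReal + gam)

/-- The entropy function `h(p) = - p log p - (1 - p) log (1 - p)`. -/
noncomputable def h (p : ℝ) : ℝ := -p * Real.log p - (1 - p) * Real.log (1 - p)

/-- `θ₀ = min_{y ∈ [α, β]} h(p₀(y))`. -/
noncomputable def theta0 (lam gam q : ℝ) : ℝ :=
  sInf ((fun y : EReal => h (p0 gam y)) '' Icc (alpha lam gam q) (beta lam gam q))

/-- `d₀ = θ₀ / log 2`. -/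
noncomputable def d0 (lam gam q : ℝ) : ℝ := theta0 lam gam q / Real.log 2

/-- The energy `∫_0^1 (∫_0^1 |x - y|^{τ-1} dω(y))² dx` (with `0^{τ-1} = ∞` for `τ < 1`). -/
noncomputable def energy (τ : ℝ) (ω : Measure ℝ) : ℝ≥0∞ :=
  ∫⁻ x in Icc (0 : ℝ) 1, (∫⁻ y in Icc (0 : ℝ) 1, (edist x y) ^ (τ - 1) ∂ω) ^ 2

/-- The capacity `Qap_τ(E)`: the supremum of `ω(E)² / energy τ ω` over finite (positive) Borel
measures `ω` with support contained in `E`. -/
noncomputable def Qap (τ : ℝ) (E : Set ℝ) : ℝ≥0∞ :=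
  ⨆ (ω : Measure ℝ) (_ : IsFiniteMeasure ω) (_ : ω.support ⊆ E), (ω E) ^ 2 / energy τ ω

/-- For `0 ≤ s < 1`, `E` is `s`-polar if `Qap_{(1-s)/2}(E) = 0`; for `s = 1` every set is
`1`-polar. -/
def IsPolar (s : ℝ) (E : Set ℝ) : Prop := s = 1 ∨ (s < 1 ∧ Qap ((1 - s) / 2) E = 0)

end Pool.Agent.Lib.MP_19f6dc_an
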