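import Pool.Agent.Lib.MP_19f6dc_an.Positive

set_option autoImplicit false

open MeasureTheory Set
open scoped ENNReal

namespace Pool.Agent.Lib.MP_19f6dc_an

variable {lam gam q : ℝ}

/-- Bernoulli masses -/
noncomputable def nu (lam : ℝ) : ℕ → ℕ → ℝ
  | 0, _ => 1
  | n + 1, k => nu lam n (k / 2) * (if k % 2 = 0 then 1 / lam else 1 - 1 / lam)

/-- left endpoints in the Bernoulli coordinate -/
noncomputable def zz (lam : ℝ) : ℕ → ℕ → ℝ
  | 0, _ => 0
  | n + 1, k => if k % 2 = 0 then zz lam n (k / 2) else zz lam n (k / 2) + nu lam n (k / 2) / lam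

theorem nu_even (n k : ℕ) : nu lam (n + 1) (2 * k) = nu lam n k * (1 / lam) := by simp [nu]

theorem nu_odd (n k : ℕ) : nu lam (n + 1) (2 * k + 1) = nu lam n k * (1 - 1 / lam) := by
  have h1 : (2 * k + 1) % 2 = 1 := by omega
  have h2 : (2 * k + 1) / 2 = k := by omega
  simp [nu, h1, h2]

theorem nu_pos (hlam : 1 < lam) (n k : ℕ) : 0 < nu lam n k := by
  induction n generalizing k with
  | zero => simp [nu]
  | succ n ih =>
    rw [nu]
    refine mul_pos (ih _) ?_
    split_ifs
    · positivity
    · rw [sub_pos, div_lt_one (by linarith)]; exact hlam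

theorem zz_bounds (hlam : 1 < lam) (n k : ℕ) : 0 ≤ zz lam n k ∧ zz lam n k + nu lam n k ≤ 1 := by
  induction n generalizing k with
  | zero => simp [zz, nu]
  | succ n ih =>
    obtain ⟨h1, h2⟩ := ih (k / 2)
    have h3 := nu_pos hlam n (k / 2)
    have hlam0 : 0 < lam := by linarith
    have h4 : nu lam n (k / 2) / lam ≤ nu lam n (k / 2) := div_le_self h3.le hlam.le
    have h5 : 0 ≤ nu lam n (k / 2) / lam := by positivity
    rw [zz, nu]
    split_ifs
    · refine ⟨h1, ?_⟩
      rw [mul_one_div]
      linarith
    · refine ⟨by linarith, ?_⟩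
      have : nu lam n (k / 2) * (1 - 1 / lam) = nu lam n (k / 2) - nu lam n (k / 2) / lam := by
        ring
      rw [this]
      linarith

/-- The invariant that makes the degenerate case a Bernoulli measure in a Mobius coordinate. -/
theorem degen_invariant (hlam : 1 < lam) (hgam : 1 < gam) {κ : ℝ} (hκ : 0 < κ)
    (h1 : (gam - 1) * κ = lam - 1) (h2 : q * κ = lam) (n k : ℕ) :
    let E := 1 + (κ - 1) * zz lam n k
    let E' := 1 + (κ - 1) * (zz lam n k + nu lam n k)
    0 < E ∧ 0 < E' ∧ E ≤ max 1 κ ∧ E' ≤ max 1 κ ∧
      ms lam gam q n k = κ * nu lam n k / (E * E') ∧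
      (st lam gam q n k + 1) = E' / (κ * E) := by
  have hlam0 : 0 < lam := by linarith
  have hg0 : 0 < gam - 1 := by linarith
  have hq0 : 0 < q := by
    by_contra hcon
    push Not at hcon
    nlinarith
  have hpos : ∀ z : ℝ, 0 ≤ z → z ≤ 1 → 0 < 1 + (κ - 1) * z := by
    intro z hz0 hz1
    have : 1 + (κ - 1) * z = (1 - z) + κ * z := by ring
    rw [this]
    rcases eq_or_lt_of_le hz0 with h | h
    · rw [← h]; simp
    · have := mul_pos hκ h
      linarith
  have hle : ∀ z : ℝ, 0 ≤ z → z ≤ 1 → 1 + (κ - 1) * z ≤ max 1 κ := by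
    intro z hz0 hz1
    have : 1 + (κ - 1) * z = (1 - z) * 1 + z * κ := by ring
    rw [this]
    have e1 := mul_le_mul_of_nonneg_left (le_max_left 1 κ) (sub_nonneg.mpr hz1)
    have e2 := mul_le_mul_of_nonneg_left (le_max_right 1 κ) hz0
    linarith
  have hb := zz_bounds hlam n k
  have hnu := nu_pos hlam n k
  refine ⟨hpos _ hb.1 (by linarith), hpos _ (by linarith) hb.2, hle _ hb.1 (by linarith),
    hle _ (by linarith) hb.2, ?_⟩
  -- the two identities by induction
  clear hb hnu
  induction n generalizing k with
  | zero => simp [ms, st, zz, nu, hκ.ne']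
  | succ n ih =>
    have hb := zz_bounds hlam n (k / 2)
    have hnu := nu_pos hlam n (k / 2)
    obtain ⟨ihm, ihs⟩ := ih (k / 2)
    have hsgt := st_gt (lam := lam) (gam := gam) (q := q) hlam0 hgam hq0 n (k / 2)
    have hE := hpos _ hb.1 (by linarith : zz lam n (k / 2) ≤ 1)
    have hE' := hpos _ (by linarith : 0 ≤ zz lam n (k / 2) + nu lam n (k / 2)) hb.2
    have hb2 : nu lam n (k / 2) / lam ≤ nu lam n (k / 2) := div_le_self hnu.le hlam.le
    have hb3 : 0 ≤ nu lam n (k / 2) / lam := by positivity
    have hEm := hpos (zz lam n (k / 2) + nu lam n (k / 2) / lam) (by linarith) (by linarith)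
    rw [ms, st, zz, nu]
    generalize st lam gam q n (k / 2) = y at *
    generalize ms lam gam q n (k / 2) = m at *
    generalize hz : zz lam n (k / 2) = z at *
    generalize hv : nu lam n (k / 2) = v at *
    -- eliminate gam and q
    have hgam' : gam = 1 + (lam - 1) / κ := by field_simp; linarith
    have hq' : q = lam / κ := by field_simp; linarith
    have hy : y = (1 + (κ - 1) * (z + v)) / (κ * (1 + (κ - 1) * z)) - 1 := by linarith
    have hyg : y + gam = lam * (1 + (κ - 1) * (z + v / lam)) / (κ * (1 + (κ - 1) * z)) := by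
      rw [hy, hgam']
      field_simp
      ring
    have nE := hE.ne'
    have nE' := hE'.ne'
    have nEm := hEm.ne'
    split_ifs
    · constructor
      · rw [ihm, P0, hyg, ihs]
        rw [show v * (1 / lam) = v / lam by ring]
        generalize 1 + (κ - 1) * (z + v / lam) = Em at *
        generalize 1 + (κ - 1) * (z + v) = E' at *
        generalize 1 + (κ - 1) * z = E at *
        field_simp
      · have : T0 lam gam y + 1 = (y + gam) / lam := by unfold T0; field_simp; ring
        rw [this, hyg]
        rw [show v * (1 / lam) = v / lam by ring]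
        generalize 1 + (κ - 1) * (z + v / lam) = Em at *
        generalize 1 + (κ - 1) * z = E at *
        field_simp
    · have hright : z + v / lam + v * (1 - 1 / lam) = z + v := by ring
      have hlam1 : (1 - 1 / lam) = (lam - 1) / lam := by field_simp
      have hyg0 : 0 < y + gam := by linarith
      constructor
      · rw [ihm, P1, hyg, hright, hlam1, hgam']
        generalize 1 + (κ - 1) * (z + v / lam) = Em at *
        generalize 1 + (κ - 1) * (z + v) = E' at *
        generalize 1 + (κ - 1) * z = E at *
        field_simp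
        ring
      · have : T1 gam q y + 1 = q * (y + 1) / (y + gam) := by unfold T1; field_simp; ring
        rw [this, hyg, hright, ihs, hq']
        generalize 1 + (κ - 1) * (z + v / lam) = Em at *
        generalize 1 + (κ - 1) * (z + v) = E' at *
        generalize 1 + (κ - 1) * z = E at *
        field_simp

end Pool.Agent.Lib.MP_19f6dc_an
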