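import Pool.Agent.Lib.MP_19f6dc_an.Moments

set_option autoImplicit false

open MeasureTheory Set Filter
open scoped ENNReal

namespace Pool.Agent.Lib.MP_19f6dc_an

variable {lam gam q θ : ℝ}

/-- indices of heavy cells at level `n` with threshold `a` -/
noncomputable def heavy (lam θ : ℝ) (n : ℕ) (a : ℝ) : Finset ℕ :=
  (Finset.range (2 ^ n)).filter (fun k => a ≤ XX lam θ n k)

/-- union of the heavy cells -/
noncomputable def heavySet (lam θ : ℝ) (n : ℕ) (a : ℝ) : Set ℝ :=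
  ⋃ k ∈ heavy lam θ n a, dy n (k : ℤ)

theorem measurableSet_heavySet (n : ℕ) (a : ℝ) : MeasurableSet (heavySet lam θ n a) :=
  Finset.measurableSet_biUnion _ fun k _ => measurableSet_dy n k

theorem heavySet_subset (n : ℕ) (a : ℝ) : heavySet lam θ n a ⊆ Icc 0 1 := by
  intro x hx
  unfold heavySet at hx
  simp only [mem_iUnion, exists_prop] at hx
  obtain ⟨k, hk, hx⟩ := hx
  have hp : (0:ℝ) < 2 ^ n := by positivity
  rw [heavy, Finset.mem_filter, Finset.mem_range] at hk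
  rw [dy, mem_Ico] at hx
  have hk' : ((k:ℝ) + 1) ≤ 2 ^ n := by exact_mod_cast hk.1
  have hk0 : (0:ℝ) ≤ (k:ℝ) := Nat.cast_nonneg k
  rw [Int.cast_natCast] at hx
  refine ⟨le_trans (by positivity) hx.1, hx.2.le.trans ?_⟩
  rw [div_le_one hp]; exact hk'

/-- few heavy cells -/
theorem card_heavy_le (hlam : 1 < lam) (n : ℕ) (a : ℝ) :
    ((heavy lam θ n a).card : ℝ) ≤ Real.exp (n * θ) * Real.exp (-a) := by
  have h1 : ∀ k ∈ heavy lam θ n a, Real.exp (a - n * θ) ≤ nu lam n k := by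
    intro k hk
    rw [heavy, Finset.mem_filter] at hk
    have h2 : a - n * θ ≤ Real.log (nu lam n k) := by
      have := hk.2
      unfold XX at this
      linarith
    rw [← Real.exp_log (nu_pos hlam n k)]
    exact Real.exp_le_exp.mpr h2
  have h2 : ∑ k ∈ heavy lam θ n a, nu lam n k ≤ 1 := by
    have h3 : ∑ k ∈ Finset.range (2 ^ n), nu lam n k = 1 := by
      have := Ex_one (θ := θ) hlam n
      unfold Ex at this
      simpa using this
    rw [← h3]
    exact Finset.sum_le_sum_of_subset_of_nonneg (Finset.filter_subset _ _)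
      fun k _ _ => (nu_pos hlam n k).le
  have h3 : ((heavy lam θ n a).card : ℝ) * Real.exp (a - n * θ) ≤ 1 := by
    rw [← nsmul_eq_mul, ← Finset.sum_const]
    exact (Finset.sum_le_sum h1).trans h2
  rw [← Real.exp_add]
  have h4 : Real.exp (n * θ + -a) = (Real.exp (a - n * θ))⁻¹ := by
    rw [← Real.exp_neg]; congr 1; ring
  rw [h4, ← one_div, le_div_iff₀ (Real.exp_pos _)]
  exact h3

theorem sq_sum_le_card (s : Finset ℕ) (f : ℕ → ℝ≥0∞) :
    (∑ k ∈ s, f k) ^ 2 ≤ 2 * (s.card : ℝ≥0∞) * ∑ k ∈ s, f k ^ 2 := by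
  rw [sq, Finset.sum_mul_sum]
  calc ∑ i ∈ s, ∑ j ∈ s, f i * f j ≤ ∑ i ∈ s, ∑ j ∈ s, (f i ^ 2 + f j ^ 2) :=
        Finset.sum_le_sum fun i _ => Finset.sum_le_sum fun j _ => mul_le_sq_add_sq _ _
    _ = 2 * (s.card : ℝ≥0∞) * ∑ k ∈ s, f k ^ 2 := by
        simp_rw [Finset.sum_add_distrib, Finset.sum_const, nsmul_eq_mul]
        rw [← Finset.mul_sum]
        ring

theorem heavySet_sq_le (hlam : 1 < lam) {s τ : ℝ} (hτ : τ ≤ 1 / 2) (hs : 1 - 2 * τ = s)
    (hsθ : s * Real.log 2 = θ) (ω : Measure ℝ) (n : ℕ) (a : ℝ) :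
    ω (heavySet lam θ n a) ^ 2 ≤ ENNReal.ofReal (2 * Real.exp (-a)) * energy τ ω := by
  have h1 : ω (heavySet lam θ n a) ≤ ∑ k ∈ heavy lam θ n a, ω (dy n (k : ℤ)) :=
    measure_biUnion_finset_le _ _
  have h2 := le_energy hτ ω n
  have h3 : ∑ k ∈ heavy lam θ n a, ω (dy n (k : ℤ)) ^ 2 ≤
      ∑ k ∈ Finset.range (2 ^ n), ω (dy n (k : ℤ)) ^ 2 :=
    Finset.sum_le_sum_of_subset (Finset.filter_subset _ _)
  have h4 : (2 : ℝ≥0∞) ^ ((n : ℝ) * (1 - 2 * τ)) = ENNReal.ofReal (Real.exp (n * θ)) := by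
    have : Real.exp (n * θ) = (2 : ℝ) ^ ((n : ℝ) * (1 - 2 * τ)) := by
      rw [Real.rpow_def_of_pos (by norm_num), hs, ← hsθ]
      congr 1
      ring
    rw [this, ← ENNReal.ofReal_rpow_of_pos (by norm_num)]
    simp
  have h5 : ((heavy lam θ n a).card : ℝ≥0∞) ≤
      ENNReal.ofReal (Real.exp (-a)) * (2 : ℝ≥0∞) ^ ((n : ℝ) * (1 - 2 * τ)) := by
    rw [h4, ← ENNReal.ofReal_mul (Real.exp_pos _).le, mul_comm (Real.exp (-a))]
    rw [← ENNReal.ofReal_natCast]
    exact ENNReal.ofReal_le_ofReal (card_heavy_le hlam n a)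
  calc ω (heavySet lam θ n a) ^ 2 ≤ (∑ k ∈ heavy lam θ n a, ω (dy n (k : ℤ))) ^ 2 := by gcongr
    _ ≤ 2 * ((heavy lam θ n a).card : ℝ≥0∞) * ∑ k ∈ heavy lam θ n a, ω (dy n (k : ℤ)) ^ 2 :=
        sq_sum_le_card _ _
    _ ≤ 2 * (ENNReal.ofReal (Real.exp (-a)) * (2 : ℝ≥0∞) ^ ((n : ℝ) * (1 - 2 * τ))) *
          ∑ k ∈ Finset.range (2 ^ n), ω (dy n (k : ℤ)) ^ 2 := by gcongr
    _ = ENNReal.ofReal (2 * Real.exp (-a)) * ((2 : ℝ≥0∞) ^ ((n : ℝ) * (1 - 2 * τ)) *
          ∑ k ∈ Finset.range (2 ^ n), ω (dy n (k : ℤ)) ^ 2) := by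
        rw [ENNReal.ofReal_mul (by norm_num)]
        simp only [ENNReal.ofReal_ofNat]
        ring
    _ ≤ _ := by gcongr

/-- limsup of the heavy sets has capacity zero -/
theorem Qap_limsup_eq_zero (hlam : 1 < lam) {s τ : ℝ} (hτ : τ ≤ 1 / 2) (hs : 1 - 2 * τ = s)
    (hsθ : s * Real.log 2 = θ) (n : ℕ → ℕ) :
    Qap τ (limsup (fun i => heavySet lam θ (n i) (2 * (i + 1))) atTop) = 0 := by
  unfold Qap
  simp only [ENNReal.iSup_eq_zero]
  intro ω hω _
  by_cases hE : energy τ ω = ⊤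
  · rw [hE, ENNReal.div_top]
  · have h1 : ω (limsup (fun i => heavySet lam θ (n i) (2 * (i + 1))) atTop) = 0 := by
      apply measure_limsup_atTop_eq_zero
      have h2 : ∀ i : ℕ, ω (heavySet lam θ (n i) (2 * (i + 1))) ≤
          ENNReal.ofReal (√(2 * (energy τ ω).toReal)) * ENNReal.ofReal (Real.exp (-1)) ^ (i + 1) := by
        intro i
        have h3 := heavySet_sq_le hlam hτ hs hsθ ω (n i) (2 * (i + 1))
        rw [← ENNReal.ofReal_pow (Real.exp_pos _).le, ← ENNReal.ofReal_mul (Real.sqrt_nonneg _)]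
        rw [ENNReal.le_ofReal_iff_toReal_le (measure_ne_top _ _) (by positivity)]
        have h4 : (ω (heavySet lam θ (n i) (2 * (i + 1)))).toReal ^ 2 ≤
            2 * Real.exp (-(2 * (i + 1))) * (energy τ ω).toReal := by
          rw [← ENNReal.toReal_pow, ← ENNReal.toReal_ofReal (r := 2 * Real.exp (-(2 * (i + 1))))
            (by positivity), ← ENNReal.toReal_mul]
          exact ENNReal.toReal_mono (ENNReal.mul_ne_top ENNReal.ofReal_ne_top hE) h3
        have h5 : (√(2 * (energy τ ω).toReal) * Real.exp (-1) ^ (i + 1)) ^ 2 =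
            2 * Real.exp (-(2 * (i + 1))) * (energy τ ω).toReal := by
          rw [mul_pow, Real.sq_sqrt (by positivity), ← Real.exp_nat_mul, ← Real.exp_nat_mul]
          rw [show ((2 : ℕ) : ℝ) * (((i + 1 : ℕ) : ℝ) * -1) = -(2 * (i + 1)) by push_cast; ring]
          ring
        rw [← h5] at h4
        exact le_of_sq_le_sq h4 (by positivity)
      refine ne_top_of_le_ne_top ?_ (ENNReal.tsum_le_tsum h2)
      rw [ENNReal.tsum_mul_left]
      refine ENNReal.mul_ne_top ENNReal.ofReal_ne_top ?_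
      have hlt : ENNReal.ofReal (Real.exp (-1)) < 1 := by
        rw [ENNReal.ofReal_lt_one, ← Real.exp_zero]
        exact Real.exp_lt_exp.mpr (by norm_num)
      simp_rw [pow_succ]
      rw [ENNReal.tsum_mul_right, ENNReal.tsum_geometric]
      refine ENNReal.mul_ne_top (ENNReal.inv_ne_top.mpr (tsub_pos_of_lt hlt).ne')
        ENNReal.ofReal_ne_top
    rw [h1]
    simp

theorem limsup_subset (n : ℕ → ℕ) :
    limsup (fun i => heavySet lam θ (n i) (2 * (i + 1))) atTop ⊆ Icc 0 1 := by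
  intro x hx
  rw [mem_limsup_iff_frequently_mem] at hx
  obtain ⟨i, hi⟩ := hx.exists
  exact heavySet_subset _ _ hi

/-- lower bound for the measure of a limsup -/
theorem measure_limsup_ge {μ : Measure ℝ} [IsFiniteMeasure μ] {A : ℕ → Set ℝ}
    (hA : ∀ i, MeasurableSet (A i)) {δ : ℝ≥0∞} (hδ : ∀ i, δ ≤ μ (A i)) :
    δ ≤ μ (limsup A atTop) := by
  rw [limsup_eq_iInf_iSup_of_nat]
  have h1 : Tendsto (fun n => μ (⨆ i ≥ n, A i)) atTop (nhds (μ (⨅ n, ⨆ i ≥ n, A i))) := by
    have := tendsto_measure_iInter_atTop (μ := μ) (s := fun n => ⨆ i ≥ n, A i)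
      (fun n => (MeasurableSet.iUnion fun i => MeasurableSet.iUnion fun _ => hA i).nullMeasurableSet)
      (fun m n hmn => by
        refine iSup_mono fun i => ?_
        exact iSup_mono' fun h => ⟨le_trans hmn h, le_rfl⟩)
      ⟨0, measure_ne_top _ _⟩
    exact this
  refine ge_of_tendsto' h1 fun n => (hδ n).trans (measure_mono ?_)
  exact le_iSup₂_of_le n le_rfl le_rfl

/-- Degenerate case: there is a polar set of positive measure. -/
theorem degenerate_exists (hlam : 1 < lam) (hlam2 : lam ≠ 2) (hgam : 1 < gam)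
    (hqq : q * (lam - 1) = lam * (gam - 1)) {f : ℝ → ℝ}
    (hf : IsDeRham lam gam q f) {μ : Measure ℝ} (hμ : IsDeRhamMeasure f μ)
    (hθ : 1 / lam * (Real.log (1 / lam) + θ) + (1 - 1 / lam) * (Real.log (1 - 1 / lam) + θ) = 0)
    {s τ : ℝ} (hτ : τ ≤ 1 / 2) (hs : 1 - 2 * τ = s) (hsθ : s * Real.log 2 = θ) :
    ∃ K : Set ℝ, MeasurableSet K ∧ K ⊆ Icc 0 1 ∧ Qap τ K = 0 ∧ μ K ≠ 0 := by
  have := hμ.prob
  have hlam0 : 0 < lam := by linarith
  have hl1 : 0 < lam - 1 := by linarith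
  have hg1 : 0 < gam - 1 := by linarith
  have hq0 : 0 < q := by
    by_contra hcon
    push Not at hcon
    nlinarith [mul_pos hlam0 hg1]
  set κ := (lam - 1) / (gam - 1) with hκ
  have hκpos : 0 < κ := by positivity
  have h1 : (gam - 1) * κ = lam - 1 := by rw [hκ]; field_simp
  have h2 : q * κ = lam := by rw [hκ]; field_simp; linarith
  obtain ⟨c, hc, δ, hδ, hfl⟩ := fluctuation hlam hlam2 hθ
  -- levels
  obtain ⟨N, hN⟩ := exists_nat_ge ((2 / c) ^ 2)
  have hNpos : 1 ≤ N := by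
    by_contra hcon
    have hN0 : N = 0 := by omega
    rw [hN0] at hN
    have : 0 < (2 / c) ^ 2 := by positivity
    simp at hN
    linarith
  set n : ℕ → ℕ := fun i => N * (i + 1) ^ 2 with hn
  have hthr : ∀ i : ℕ, 2 * ((i : ℝ) + 1) ≤ c * √(n i : ℕ) := by
    intro i
    have e1 : √((n i : ℕ) : ℝ) = √N * (i + 1) := by
      rw [hn]; push_cast
      rw [Real.sqrt_mul (by positivity), Real.sqrt_sq (by positivity)]
    have e2 : 2 / c ≤ √(N:ℝ) := by
      apply Real.le_sqrt_of_sq_le hN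
    rw [e1]
    have e3 : 2 ≤ c * √(N:ℝ) := by
      rw [div_le_iff₀ hc] at e2
      linarith
    have e4 : (0:ℝ) ≤ (i:ℝ) + 1 := by positivity
    calc 2 * ((i : ℝ) + 1) ≤ c * √(N:ℝ) * ((i : ℝ) + 1) := by gcongr
      _ = _ := by ring
  set m := max 1 κ with hm
  have hmpos : 0 < m := lt_of_lt_of_le one_pos (le_max_left _ _)
  set c' := κ / (m * m) with hc'
  have hc'pos : 0 < c' := by positivity
  have hms : ∀ n k, c' * nu lam n k ≤ ms lam gam q n k := by
    intro n k
    have := degen_invariant hlam hgam hκpos h1 h2 n k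
    simp only at this
    obtain ⟨hE, hE', hEm, hEm', hms, -⟩ := this
    have hnu := nu_pos hlam n k
    rw [hms, hc', div_mul_eq_mul_div]
    apply div_le_div_of_nonneg_left (by positivity) (mul_pos hE hE')
    exact mul_le_mul hEm hEm' hE'.le hmpos.le
  refine ⟨limsup (fun i => heavySet lam θ (n i) (2 * (i + 1))) atTop,
    MeasurableSet.measurableSet_limsup fun i => measurableSet_heavySet _ _, limsup_subset n,
    Qap_limsup_eq_zero hlam hτ hs hsθ n, ?_⟩
  have hlow : ∀ i : ℕ, ENNReal.ofReal (c' * δ) ≤ μ (heavySet lam θ (n i) (2 * (i + 1))) := by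
    intro i
    have hni : 1 ≤ n i := by
      rw [hn]; simp only
      exact Nat.one_le_iff_ne_zero.mpr (by positivity)
    have e1 := hfl (n i) hni
    have e2 : Ex lam θ (n i) (fun x => if c * √(n i : ℕ) ≤ x then 1 else 0) ≤
        ∑ k ∈ heavy lam θ (n i) (2 * (i + 1)), nu lam (n i) k := by
      unfold Ex heavy
      rw [Finset.sum_filter]
      refine Finset.sum_le_sum fun k _ => ?_
      have hnu := nu_pos hlam (n i) k
      beta_reduce
      by_cases hcase : c * √(n i : ℕ) ≤ XX lam θ (n i) k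
      · have : 2 * ((i : ℝ) + 1) ≤ XX lam θ (n i) k := (hthr i).trans hcase
        rw [if_pos hcase, if_pos this, mul_one]
      · rw [if_neg hcase, mul_zero]
        split_ifs
        · exact hnu.le
        · exact le_rfl
    have e3 : μ (heavySet lam θ (n i) (2 * (i + 1))) =
        ∑ k ∈ heavy lam θ (n i) (2 * (i + 1)), ENNReal.ofReal (ms lam gam q (n i) k) := by
      unfold heavySet
      rw [measure_biUnion_finset]
      · refine Finset.sum_congr rfl fun k hk => ?_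
        rw [heavy, Finset.mem_filter, Finset.mem_range] at hk
        exact measure_dy hlam0 hgam hq0 hf hμ _ _ hk.1
      · intro a _ b _ hab
        exact pairwise_disjoint_dy (n i) (by exact_mod_cast hab)
      · exact fun k _ => measurableSet_dy _ _
    rw [e3, ← ENNReal.ofReal_sum_of_nonneg fun k _ => (ms_pos hlam0 hgam hq0 _ _).le]
    apply ENNReal.ofReal_le_ofReal
    calc c' * δ ≤ c' * ∑ k ∈ heavy lam θ (n i) (2 * (i + 1)), nu lam (n i) k := by
          gcongr
          exact e1.trans e2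
      _ = ∑ k ∈ heavy lam θ (n i) (2 * (i + 1)), c' * nu lam (n i) k := by rw [Finset.mul_sum]
      _ ≤ _ := Finset.sum_le_sum fun k _ => hms _ _
  have hge := measure_limsup_ge (μ := μ) (fun i => measurableSet_heavySet (n i) (2 * (i + 1)))
    (A := fun i => heavySet lam θ (n i) (2 * (i + 1))) hlow
  intro h0
  rw [h0] at hge
  have : 0 < ENNReal.ofReal (c' * δ) := ENNReal.ofReal_pos.mpr (by positivity)
  exact absurd hge (not_le.mpr this)

end Pool.Agent.Lib.MP_19f6dc_an
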