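import Pool.Agent.Lib.MP_19f6dc_an.Tree

set_option autoImplicit false

open MeasureTheory Set
open scoped ENNReal

namespace Pool.Agent.Lib.MP_19f6dc_an

/-! ### Dyadic intervals -/

theorem measurableSet_dy (n : ℕ) (k : ℤ) : MeasurableSet (dy n k) := measurableSet_Ico

theorem mem_dy_iff (n : ℕ) (k : ℤ) (x : ℝ) : x ∈ dy n k ↔ ⌊x * 2 ^ n⌋ = k := by
  have hp : (0:ℝ) < 2 ^ n := by positivity
  rw [dy, mem_Ico, Int.floor_eq_iff, div_le_iff₀ hp, lt_div_iff₀ hp]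

theorem iUnion_dy (n : ℕ) : (⋃ k : ℤ, dy n k) = univ := by
  ext x
  simp only [mem_iUnion, mem_univ, iff_true]
  exact ⟨_, (mem_dy_iff n _ x).mpr rfl⟩

theorem pairwise_disjoint_dy (n : ℕ) : Pairwise (Function.onFun Disjoint (dy n)) := by
  intro i j hij
  rw [Function.onFun, Set.disjoint_left]
  intro x hi hj
  exact hij (((mem_dy_iff n i x).mp hi).symm.trans ((mem_dy_iff n j x).mp hj))

theorem lintegral_eq_tsum_dy (n : ℕ) (ω : Measure ℝ) (g : ℝ → ℝ≥0∞) :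
    ∫⁻ x, g x ∂ω = ∑' k : ℤ, ∫⁻ x in dy n k, g x ∂ω := by
  rw [← lintegral_iUnion (measurableSet_dy n) (pairwise_disjoint_dy n), iUnion_dy,
    Measure.restrict_univ]

/-- the sum of the squares of the masses of the dyadic intervals of level `n` -/
noncomputable def Qn (n : ℕ) (ω : Measure ℝ) : ℝ≥0∞ := ∑' k : ℤ, ω (dy n k) ^ 2

theorem mul_le_sq_add_sq (a b : ℝ≥0∞) : a * b ≤ a ^ 2 + b ^ 2 := by
  rcases le_total a b with h | h
  · calc a * b ≤ b * b := by gcongr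
      _ = b ^ 2 := by ring
      _ ≤ a ^ 2 + b ^ 2 := le_add_self
  · calc a * b ≤ a * a := by gcongr
      _ = a ^ 2 := by ring
      _ ≤ a ^ 2 + b ^ 2 := le_self_add

theorem tsum_shift_le (n : ℕ) (ω : Measure ℝ) (j : ℤ) :
    ∑' k : ℤ, ω (dy n k) * ω (dy n (k + j)) ≤ 2 * Qn n ω := by
  calc ∑' k : ℤ, ω (dy n k) * ω (dy n (k + j))
      ≤ ∑' k : ℤ, (ω (dy n k) ^ 2 + ω (dy n (k + j)) ^ 2) :=
        ENNReal.tsum_le_tsum fun k => mul_le_sq_add_sq _ _
    _ = Qn n ω + ∑' k : ℤ, ω (dy n (k + j)) ^ 2 := by rw [ENNReal.tsum_add]; rfl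
    _ = Qn n ω + Qn n ω := by
        congr 1
        exact (Equiv.addRight j).tsum_eq (fun k => ω (dy n k) ^ 2)
    _ = 2 * Qn n ω := by ring

theorem closedBall_subset (n : ℕ) (k : ℤ) {y : ℝ} (hy : y ∈ dy n k) :
    Metric.closedBall y (2 * (2 ^ n)⁻¹) ⊆ ⋃ j ∈ Finset.Icc (-2 : ℤ) 2, dy n (k + j) := by
  intro z hz
  have hp : (0:ℝ) < 2 ^ n := by positivity
  rw [Metric.mem_closedBall, Real.dist_eq, abs_le] at hz
  rw [dy, mem_Ico, div_le_iff₀ hp, lt_div_iff₀ hp] at hy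
  have h1 : (z - y) * 2 ^ n ≤ 2 := by
    have := mul_le_mul_of_nonneg_right hz.2 hp.le
    rwa [mul_assoc, inv_mul_cancel₀ hp.ne', mul_one] at this
  have h2 : -2 ≤ (z - y) * 2 ^ n := by
    have := mul_le_mul_of_nonneg_right hz.1 hp.le
    rwa [neg_mul, mul_assoc, inv_mul_cancel₀ hp.ne', mul_one] at this
  have h3 : ((k - 2 : ℤ) : ℝ) ≤ z * 2 ^ n := by push_cast; linarith
  have h4 : z * 2 ^ n < ((k + 3 : ℤ) : ℝ) := by push_cast; linarith
  have h5 : k - 2 ≤ ⌊z * 2 ^ n⌋ := Int.le_floor.mpr h3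
  have h6 : ⌊z * 2 ^ n⌋ < k + 3 := Int.floor_lt.mpr h4
  simp only [mem_iUnion, Finset.mem_Icc, exists_prop]
  exact ⟨⌊z * 2 ^ n⌋ - k, ⟨by omega, by omega⟩, (mem_dy_iff n _ z).mpr (by ring)⟩

theorem lintegral_ball_le (n : ℕ) (ω : Measure ℝ) :
    ∫⁻ y, ω (Metric.closedBall y (2 * (2 ^ n)⁻¹)) ∂ω ≤ 10 * Qn n ω := by
  rw [lintegral_eq_tsum_dy n]
  calc ∑' k : ℤ, ∫⁻ y in dy n k, ω (Metric.closedBall y (2 * (2 ^ n)⁻¹)) ∂ω
      ≤ ∑' k : ℤ, ∑ j ∈ Finset.Icc (-2 : ℤ) 2, ω (dy n k) * ω (dy n (k + j)) := by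
        refine ENNReal.tsum_le_tsum fun k => ?_
        calc ∫⁻ y in dy n k, ω (Metric.closedBall y (2 * (2 ^ n)⁻¹)) ∂ω
            ≤ ∫⁻ y in dy n k, (∑ j ∈ Finset.Icc (-2 : ℤ) 2, ω (dy n (k + j))) ∂ω := by
              refine setLIntegral_mono' (measurableSet_dy n k) fun y hy => ?_
              refine (measure_mono (closedBall_subset n k hy)).trans ?_
              exact measure_biUnion_finset_le _ _
          _ = (∑ j ∈ Finset.Icc (-2 : ℤ) 2, ω (dy n (k + j))) * ω (dy n k) := by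
              rw [setLIntegral_const]
          _ = ∑ j ∈ Finset.Icc (-2 : ℤ) 2, ω (dy n k) * ω (dy n (k + j)) := by
              rw [Finset.sum_mul]
              exact Finset.sum_congr rfl fun j _ => mul_comm _ _
    _ = ∑ j ∈ Finset.Icc (-2 : ℤ) 2, ∑' k : ℤ, ω (dy n k) * ω (dy n (k + j)) := by
        rw [Summable.tsum_finsetSum fun i _ => ENNReal.summable]
    _ ≤ ∑ j ∈ Finset.Icc (-2 : ℤ) 2, 2 * Qn n ω :=
        Finset.sum_le_sum fun j _ => tsum_shift_le n ω j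
    _ = 10 * Qn n ω := by
        rw [Finset.sum_const, show (Finset.Icc (-2 : ℤ) 2).card = 5 from rfl, nsmul_eq_mul,
          ← mul_assoc]
        norm_num

/-- weights -/
noncomputable def cw (τ : ℝ) (m : ℕ) : ℝ≥0∞ := (2 : ℝ≥0∞) ^ ((m : ℝ) * (1 - τ))

theorem one_le_cw {τ : ℝ} (hτ : τ ≤ 1) (m : ℕ) : 1 ≤ cw τ m := by
  unfold cw
  calc (1 : ℝ≥0∞) = 2 ^ (0 : ℝ) := by simp
    _ ≤ 2 ^ ((m : ℝ) * (1 - τ)) := by
      apply ENNReal.rpow_le_rpow_of_exponent_le (by norm_num)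
      have : (0:ℝ) ≤ m := Nat.cast_nonneg m
      nlinarith

/-- indicator of the closed ball of radius `2^{-m}` -/
noncomputable def bI (m : ℕ) (x y : ℝ) : ℝ≥0∞ :=
  (Metric.closedBall x ((2 ^ m)⁻¹ : ℝ)).indicator (fun _ => (1 : ℝ≥0∞)) y

theorem kernel_le {τ : ℝ} (hτ0 : 0 < τ) (hτ1 : τ < 1) {x y : ℝ} (hx : x ∈ Icc (0:ℝ) 1)
    (hy : y ∈ Icc (0:ℝ) 1) : (edist x y) ^ (τ - 1) ≤ 2 * ∑' m : ℕ, cw τ m * bI m x y := by
  rcases eq_or_ne x y with hxy | hxy
  · subst hxy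
    have : ∑' m : ℕ, cw τ m * bI m x x = ⊤ := by
      apply top_unique
      calc (⊤ : ℝ≥0∞) = ∑' _ : ℕ, 1 := by
            rw [ENNReal.tsum_const_eq_top_of_ne_zero one_ne_zero]
        _ ≤ ∑' m : ℕ, cw τ m * bI m x x := by
            refine ENNReal.tsum_le_tsum fun m => ?_
            have h1 : bI m x x = 1 := by
              unfold bI
              rw [indicator_of_mem]
              exact Metric.mem_closedBall_self (by positivity)
            rw [h1, mul_one]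
            exact one_le_cw hτ1.le m
    rw [this, ENNReal.mul_top (by norm_num)]
    exact le_top
  · have hd0 : 0 < dist x y := dist_pos.mpr hxy
    have hd1 : dist x y ≤ 1 := by
      rw [Real.dist_eq, abs_le]
      constructor <;> linarith [hx.1, hx.2, hy.1, hy.2]
    obtain ⟨N, hN1, hN2⟩ := exists_nat_pow_near_of_lt_one hd0 hd1 (y := (1/2 : ℝ)) (by norm_num)
      (by norm_num)
    have hmem : bI N x y = 1 := by
      unfold bI
      rw [indicator_of_mem]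
      rw [Metric.mem_closedBall, dist_comm]
      calc dist x y ≤ (1/2) ^ N := hN2
        _ = ((2 ^ N)⁻¹ : ℝ) := by rw [one_div, inv_pow]
    have hed : ((2 : ℝ≥0∞) ^ ((N + 1 : ℕ) : ℝ))⁻¹ ≤ edist x y := by
      rw [edist_dist, ENNReal.rpow_natCast]
      have h2 : ((2 : ℝ≥0∞) ^ (N + 1))⁻¹ = ENNReal.ofReal ((1/2 : ℝ) ^ (N + 1)) := by
        rw [ENNReal.ofReal_pow (by norm_num), one_div, ENNReal.ofReal_inv_of_pos (by norm_num),
          ENNReal.inv_pow]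
        simp
      rw [h2]
      exact ENNReal.ofReal_le_ofReal hN1.le
    have h3 : (edist x y) ^ (τ - 1) ≤ (2 : ℝ≥0∞) ^ (((N + 1 : ℕ) : ℝ) * (1 - τ)) := by
      have e1 : τ - 1 = -(1 - τ) := by ring
      rw [e1, ENNReal.rpow_neg, ENNReal.inv_le_iff_inv_le, ENNReal.rpow_mul, ← ENNReal.inv_rpow]
      exact ENNReal.rpow_le_rpow hed (by linarith)
    have h4 : (2 : ℝ≥0∞) ^ (((N + 1 : ℕ) : ℝ) * (1 - τ)) ≤ 2 * cw τ N := by
      have e2 : ((N + 1 : ℕ) : ℝ) * (1 - τ) = (1 - τ) + (N : ℝ) * (1 - τ) := by push_cast; ring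
      rw [e2, ENNReal.rpow_add _ _ (by norm_num) (by norm_num)]
      unfold cw
      gcongr
      calc (2 : ℝ≥0∞) ^ (1 - τ) ≤ 2 ^ (1 : ℝ) :=
            ENNReal.rpow_le_rpow_of_exponent_le (by norm_num) (by linarith)
        _ = 2 := by simp
    refine (h3.trans h4).trans ?_
    gcongr
    calc cw τ N = cw τ N * bI N x y := by rw [hmem, mul_one]
      _ ≤ ∑' m : ℕ, cw τ m * bI m x y := ENNReal.le_tsum N

/-- the square of a series is at most twice the sum over ordered pairs -/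
theorem sq_tsum_le (a : ℕ → ℝ≥0∞) :
    (∑' n, a n) ^ 2 ≤ 2 * ∑' m, ∑' d, a m * a (m + d) := by
  have h1 : (∑' n, a n) ^ 2 = ∑' n, ∑' m, a n * a m := by
    rw [sq, ← ENNReal.tsum_mul_right]
    refine tsum_congr fun n => ?_
    rw [ENNReal.tsum_mul_left]
  have key : ∀ m, ∑' n, (if m ≤ n then a m * a n else 0) ≤ ∑' d, a m * a (m + d) := by
    intro m
    have hinj : Function.Injective (fun d : ℕ => m + d) := fun a b h => by simpa using h
    rw [← hinj.tsum_eq (f := fun n => if m ≤ n then a m * a n else 0)]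
    · exact ENNReal.tsum_le_tsum fun d => by simp
    · intro n hn
      rw [Function.mem_support] at hn
      by_cases hmn : m ≤ n
      · exact ⟨n - m, by simp only; omega⟩
      · simp [hmn] at hn
  have h2 : ∑' n, ∑' m, a n * a m ≤
      ∑' n, ∑' m, (if n ≤ m then a n * a m else 0) + ∑' n, ∑' m, (if m ≤ n then a m * a n else 0) := by
    rw [← ENNReal.tsum_add]
    refine ENNReal.tsum_le_tsum fun n => ?_
    rw [← ENNReal.tsum_add]
    refine ENNReal.tsum_le_tsum fun m => ?_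
    rcases le_total n m with h | h
    · simp only [h, if_true]; exact le_self_add
    · simp only [h, if_true]; rw [mul_comm (a m)]; exact le_add_self
  rw [h1]
  refine h2.trans ?_
  rw [two_mul]
  refine add_le_add (ENNReal.tsum_le_tsum key) ?_
  rw [ENNReal.tsum_comm]
  exact ENNReal.tsum_le_tsum key

theorem measurable_bI (m : ℕ) : Measurable (fun p : ℝ × ℝ => bI m p.1 p.2) := by
  have : (fun p : ℝ × ℝ => bI m p.1 p.2) =
      ({p : ℝ × ℝ | dist p.2 p.1 ≤ ((2 ^ m)⁻¹ : ℝ)}).indicator (fun _ => (1 : ℝ≥0∞)) := by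
    ext p
    unfold bI
    simp only [indicator, Metric.mem_closedBall, mem_ofPred_eq]
  rw [this]
  refine measurable_const.indicator ?_
  exact measurableSet_le (measurable_dist.comp measurable_swap) measurable_const

theorem measurable_bI_right (m : ℕ) (x : ℝ) : Measurable (fun y : ℝ => bI m x y) :=
  (measurable_bI m).comp measurable_prodMk_left

theorem lintegral_bI (m : ℕ) (x : ℝ) (ω : Measure ℝ) :
    ∫⁻ y, bI m x y ∂ω = ω (Metric.closedBall x ((2 ^ m)⁻¹ : ℝ)) := by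
  unfold bI
  rw [lintegral_indicator measurableSet_closedBall, setLIntegral_const, one_mul]

theorem measurable_ball (m : ℕ) (ω : Measure ℝ) [SFinite ω] :
    Measurable (fun x : ℝ => ω (Metric.closedBall x ((2 ^ m)⁻¹ : ℝ))) := by
  simp_rw [← lintegral_bI]
  exact (measurable_bI m).lintegral_prod_right'

theorem bI_symm (m : ℕ) (x y : ℝ) : bI m x y = bI m y x := by
  unfold bI
  simp only [indicator, Metric.mem_closedBall, dist_comm]

/-- the key cross estimate -/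
theorem cross_le (m d : ℕ) (ω : Measure ℝ) [IsFiniteMeasure ω] :
    ∫⁻ x, ω (Metric.closedBall x ((2 ^ m)⁻¹ : ℝ)) * ω (Metric.closedBall x ((2 ^ (m + d))⁻¹ : ℝ))
      ≤ 20 * (2 : ℝ≥0∞) ^ (-((m + d : ℕ) : ℝ)) * Qn m ω := by
  have hr : ∀ y x : ℝ, ω (Metric.closedBall x ((2 ^ m)⁻¹ : ℝ)) * bI (m + d) x y ≤
      ω (Metric.closedBall y (2 * (2 ^ m)⁻¹ : ℝ)) * bI (m + d) y x := by
    intro y x
    rw [bI_symm (m + d) y x]
    by_cases hmem : y ∈ Metric.closedBall x ((2 ^ (m + d))⁻¹ : ℝ)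
    · gcongr
      intro z hz
      rw [Metric.mem_closedBall] at hmem hz ⊢
      have h1 : ((2 ^ (m + d))⁻¹ : ℝ) ≤ (2 ^ m)⁻¹ := by
        apply inv_anti₀ (by positivity)
        exact pow_le_pow_right₀ (by norm_num) (by omega)
      calc dist z y ≤ dist z x + dist x y := dist_triangle _ _ _
        _ ≤ (2 ^ m)⁻¹ + (2 ^ m)⁻¹ := by
            rw [dist_comm x y]
            exact add_le_add hz (hmem.trans h1)
        _ = 2 * (2 ^ m)⁻¹ := by ring
    · unfold bI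
      rw [indicator_of_notMem hmem]
      simp
  calc ∫⁻ x, ω (Metric.closedBall x ((2 ^ m)⁻¹ : ℝ)) *
        ω (Metric.closedBall x ((2 ^ (m + d))⁻¹ : ℝ))
      = ∫⁻ x, ∫⁻ y, ω (Metric.closedBall x ((2 ^ m)⁻¹ : ℝ)) * bI (m + d) x y ∂ω := by
        refine lintegral_congr fun x => ?_
        rw [lintegral_const_mul _ (measurable_bI_right (m + d) _), lintegral_bI]
    _ = ∫⁻ y, (∫⁻ x, ω (Metric.closedBall x ((2 ^ m)⁻¹ : ℝ)) * bI (m + d) x y) ∂ω := by
        rw [lintegral_lintegral_swap]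
        refine Measurable.aemeasurable ?_
        exact ((measurable_ball m ω).comp measurable_fst).mul (measurable_bI (m + d))
    _ ≤ ∫⁻ y, (∫⁻ x, ω (Metric.closedBall y (2 * (2 ^ m)⁻¹ : ℝ)) * bI (m + d) y x) ∂ω := by
        refine lintegral_mono fun y => lintegral_mono fun x => hr y x
    _ = ∫⁻ y, ω (Metric.closedBall y (2 * (2 ^ m)⁻¹ : ℝ)) *
          volume (Metric.closedBall y ((2 ^ (m + d))⁻¹ : ℝ)) ∂ω := by
        refine lintegral_congr fun y => ?_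
        rw [lintegral_const_mul _ (measurable_bI_right (m + d) _), lintegral_bI]
    _ = (∫⁻ y, ω (Metric.closedBall y (2 * (2 ^ m)⁻¹ : ℝ)) ∂ω) *
          ENNReal.ofReal (2 * (2 ^ (m + d))⁻¹) := by
        rw [← lintegral_mul_const' _ _ ENNReal.ofReal_ne_top]
        refine lintegral_congr fun y => ?_
        rw [Real.volume_closedBall]
    _ ≤ (10 * Qn m ω) * ENNReal.ofReal (2 * (2 ^ (m + d))⁻¹) := by
        gcongr
        exact lintegral_ball_le m ω
    _ = 20 * (2 : ℝ≥0∞) ^ (-((m + d : ℕ) : ℝ)) * Qn m ω := by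
        have : ENNReal.ofReal (2 * (2 ^ (m + d))⁻¹) = 2 * (2 : ℝ≥0∞) ^ (-((m + d : ℕ) : ℝ)) := by
          rw [ENNReal.ofReal_mul (by norm_num), ENNReal.ofReal_inv_of_pos (by positivity),
            ENNReal.ofReal_pow (by norm_num), ENNReal.rpow_neg, ENNReal.rpow_natCast]
          simp
        rw [this]
        ring

/-- Upper bound for the energy by the dyadic sums. -/
theorem energy_le {τ : ℝ} (hτ0 : 0 < τ) (hτ1 : τ ≤ 1 / 2) :
    ∃ C : ℝ≥0∞, C ≠ ⊤ ∧ ∀ (ω : Measure ℝ) [IsFiniteMeasure ω],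
      energy τ ω ≤ C * ∑' m : ℕ, (2 : ℝ≥0∞) ^ ((m : ℝ) * (1 - 2 * τ)) * Qn m ω := by
  set G : ℝ≥0∞ := ∑' d : ℕ, (2 : ℝ≥0∞) ^ (-((d : ℝ) * τ)) with hG
  have hGtop : G ≠ ⊤ := by
    have h1 : ∀ d : ℕ, (2 : ℝ≥0∞) ^ (-((d : ℝ) * τ)) = ((2 : ℝ≥0∞) ^ (-τ)) ^ d := by
      intro d
      rw [← ENNReal.rpow_natCast, ← ENNReal.rpow_mul]
      congr 1
      ring
    rw [hG]
    simp_rw [h1]
    rw [ENNReal.tsum_geometric]
    apply ENNReal.inv_ne_top.mpr
    have h2 : (2 : ℝ≥0∞) ^ (-τ) < 1 := by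
      rw [ENNReal.rpow_neg]
      apply ENNReal.inv_lt_one.mpr
      exact ENNReal.one_lt_rpow (by norm_num) hτ0
    exact (tsub_pos_of_lt h2).ne'
  refine ⟨160 * G, ENNReal.mul_ne_top (by norm_num) hGtop, fun ω _ => ?_⟩
  have hsq : ∀ x ∈ Icc (0:ℝ) 1, (∫⁻ y in Icc (0 : ℝ) 1, (edist x y) ^ (τ - 1) ∂ω) ^ 2 ≤
      8 * ∑' m : ℕ, ∑' d : ℕ, (cw τ m * ω (Metric.closedBall x ((2 ^ m)⁻¹ : ℝ))) *
        (cw τ (m + d) * ω (Metric.closedBall x ((2 ^ (m + d))⁻¹ : ℝ))) := by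
    intro x hx
    have h1 : ∫⁻ y in Icc (0 : ℝ) 1, (edist x y) ^ (τ - 1) ∂ω ≤
        2 * ∑' m : ℕ, cw τ m * ω (Metric.closedBall x ((2 ^ m)⁻¹ : ℝ)) := by
      calc ∫⁻ y in Icc (0 : ℝ) 1, (edist x y) ^ (τ - 1) ∂ω
          ≤ ∫⁻ y in Icc (0 : ℝ) 1, 2 * ∑' m : ℕ, cw τ m * bI m x y ∂ω :=
            setLIntegral_mono' measurableSet_Icc fun y hy => kernel_le hτ0 (by linarith) hx hy
        _ ≤ ∫⁻ y, 2 * ∑' m : ℕ, cw τ m * bI m x y ∂ω := setLIntegral_le_lintegral _ _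
        _ = 2 * ∑' m : ℕ, cw τ m * ω (Metric.closedBall x ((2 ^ m)⁻¹ : ℝ)) := by
            rw [lintegral_const_mul, lintegral_tsum]
            · congr 1
              refine tsum_congr fun m => ?_
              rw [lintegral_const_mul _ (measurable_bI_right m x), lintegral_bI]
            · exact fun m => ((measurable_bI_right m x).const_mul _).aemeasurable
            · exact Measurable.ennreal_tsum fun m => (measurable_bI_right m x).const_mul _
    calc (∫⁻ y in Icc (0 : ℝ) 1, (edist x y) ^ (τ - 1) ∂ω) ^ 2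
        ≤ (2 * ∑' m : ℕ, cw τ m * ω (Metric.closedBall x ((2 ^ m)⁻¹ : ℝ))) ^ 2 := by gcongr
      _ = 4 * (∑' m : ℕ, cw τ m * ω (Metric.closedBall x ((2 ^ m)⁻¹ : ℝ))) ^ 2 := by
          rw [mul_pow]; norm_num
      _ ≤ 4 * (2 * ∑' m : ℕ, ∑' d : ℕ, (cw τ m * ω (Metric.closedBall x ((2 ^ m)⁻¹ : ℝ))) *
            (cw τ (m + d) * ω (Metric.closedBall x ((2 ^ (m + d))⁻¹ : ℝ)))) := by
          gcongr
          exact sq_tsum_le _
      _ = _ := by rw [← mul_assoc]; norm_num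
  have hmeas : ∀ m d : ℕ, Measurable (fun x : ℝ =>
      (cw τ m * ω (Metric.closedBall x ((2 ^ m)⁻¹ : ℝ))) *
        (cw τ (m + d) * ω (Metric.closedBall x ((2 ^ (m + d))⁻¹ : ℝ)))) := fun m d =>
    ((measurable_ball m ω).const_mul _).mul ((measurable_ball (m + d) ω).const_mul _)
  calc energy τ ω ≤ ∫⁻ x in Icc (0 : ℝ) 1, 8 * ∑' m : ℕ, ∑' d : ℕ,
          (cw τ m * ω (Metric.closedBall x ((2 ^ m)⁻¹ : ℝ))) *
          (cw τ (m + d) * ω (Metric.closedBall x ((2 ^ (m + d))⁻¹ : ℝ))) :=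
        setLIntegral_mono' measurableSet_Icc hsq
    _ ≤ ∫⁻ x, 8 * ∑' m : ℕ, ∑' d : ℕ,
          (cw τ m * ω (Metric.closedBall x ((2 ^ m)⁻¹ : ℝ))) *
          (cw τ (m + d) * ω (Metric.closedBall x ((2 ^ (m + d))⁻¹ : ℝ))) :=
        setLIntegral_le_lintegral _ _
    _ = 8 * ∑' m : ℕ, ∑' d : ℕ, ∫⁻ x,
          (cw τ m * ω (Metric.closedBall x ((2 ^ m)⁻¹ : ℝ))) *
          (cw τ (m + d) * ω (Metric.closedBall x ((2 ^ (m + d))⁻¹ : ℝ))) := by
        rw [lintegral_const_mul, lintegral_tsum]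
        · congr 1
          refine tsum_congr fun m => ?_
          rw [lintegral_tsum fun d => (hmeas m d).aemeasurable]
        · exact fun m => (Measurable.ennreal_tsum fun d => hmeas m d).aemeasurable
        · exact Measurable.ennreal_tsum fun m => Measurable.ennreal_tsum fun d => hmeas m d
    _ ≤ 8 * ∑' m : ℕ, ∑' d : ℕ, (20 * (2 : ℝ≥0∞) ^ (-((d : ℝ) * τ))) *
          ((2 : ℝ≥0∞) ^ ((m : ℝ) * (1 - 2 * τ)) * Qn m ω) := by
        gcongr with m d
        calc ∫⁻ x, (cw τ m * ω (Metric.closedBall x ((2 ^ m)⁻¹ : ℝ))) *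
              (cw τ (m + d) * ω (Metric.closedBall x ((2 ^ (m + d))⁻¹ : ℝ)))
            = ∫⁻ x, (cw τ m * cw τ (m + d)) * (ω (Metric.closedBall x ((2 ^ m)⁻¹ : ℝ)) *
                ω (Metric.closedBall x ((2 ^ (m + d))⁻¹ : ℝ))) := by
              refine lintegral_congr fun x => ?_
              ring
          _ = (cw τ m * cw τ (m + d)) * ∫⁻ x, (ω (Metric.closedBall x ((2 ^ m)⁻¹ : ℝ)) *
                ω (Metric.closedBall x ((2 ^ (m + d))⁻¹ : ℝ))) := by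
              rw [lintegral_const_mul]
              exact (measurable_ball m ω).mul (measurable_ball (m + d) ω)
          _ ≤ (cw τ m * cw τ (m + d)) *
                (20 * (2 : ℝ≥0∞) ^ (-((m + d : ℕ) : ℝ)) * Qn m ω) := by
              gcongr
              exact cross_le m d ω
          _ = 20 * (cw τ m * cw τ (m + d) * (2 : ℝ≥0∞) ^ (-((m + d : ℕ) : ℝ))) * Qn m ω := by
              ring
          _ = 20 * ((2 : ℝ≥0∞) ^ (-((d : ℝ) * τ)) * (2 : ℝ≥0∞) ^ ((m : ℝ) * (1 - 2 * τ))) *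
                Qn m ω := by
              congr 2
              unfold cw
              rw [← ENNReal.rpow_add _ _ (by norm_num) (by norm_num),
                ← ENNReal.rpow_add _ _ (by norm_num) (by norm_num),
                ← ENNReal.rpow_add _ _ (by norm_num) (by norm_num)]
              congr 1
              push_cast
              ring
          _ = _ := by ring
    _ = 160 * G * ∑' m : ℕ, (2 : ℝ≥0∞) ^ ((m : ℝ) * (1 - 2 * τ)) * Qn m ω := by
        have h1 : ∀ m : ℕ, ∑' d : ℕ, (20 * (2 : ℝ≥0∞) ^ (-((d : ℝ) * τ))) *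
          ((2 : ℝ≥0∞) ^ ((m : ℝ) * (1 - 2 * τ)) * Qn m ω) =
          20 * G * ((2 : ℝ≥0∞) ^ ((m : ℝ) * (1 - 2 * τ)) * Qn m ω) := by
          intro m
          rw [ENNReal.tsum_mul_right, ENNReal.tsum_mul_left]
        simp_rw [h1]
        rw [ENNReal.tsum_mul_left, ← mul_assoc, ← mul_assoc]
        norm_num

/-- Lower bound for the energy by the dyadic sum of one level. -/
theorem le_energy {τ : ℝ} (hτ1 : τ ≤ 1 / 2) (ω : Measure ℝ) (n : ℕ) :
    (2 : ℝ≥0∞) ^ ((n : ℝ) * (1 - 2 * τ)) * ∑ k ∈ Finset.range (2 ^ n), ω (dy n (k : ℤ)) ^ 2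
      ≤ energy τ ω := by
  have hp : (0:ℝ) < 2 ^ n := by positivity
  have hsub : ∀ k ∈ Finset.range (2 ^ n), dy n (k : ℤ) ⊆ Icc (0:ℝ) 1 := by
    intro k hk x hx
    rw [Finset.mem_range] at hk
    rw [dy, mem_Ico] at hx
    have hk' : ((k:ℝ) + 1) ≤ 2 ^ n := by exact_mod_cast hk
    have hk0 : (0:ℝ) ≤ (k:ℝ) := Nat.cast_nonneg k
    rw [Int.cast_natCast] at hx
    refine ⟨le_trans (by positivity) hx.1, hx.2.le.trans ?_⟩
    rw [div_le_one hp]; exact hk'
  have hcell : ∀ k ∈ Finset.range (2 ^ n),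
      (2 : ℝ≥0∞) ^ ((n : ℝ) * (1 - 2 * τ)) * ω (dy n (k : ℤ)) ^ 2 ≤
      ∫⁻ x in dy n (k : ℤ), (∫⁻ y in Icc (0 : ℝ) 1, (edist x y) ^ (τ - 1) ∂ω) ^ 2 := by
    intro k hk
    have h1 : ∀ x ∈ dy n (k : ℤ), (2 : ℝ≥0∞) ^ ((n : ℝ) * (1 - τ)) * ω (dy n (k : ℤ)) ≤
        ∫⁻ y in Icc (0 : ℝ) 1, (edist x y) ^ (τ - 1) ∂ω := by
      intro x hx
      calc (2 : ℝ≥0∞) ^ ((n : ℝ) * (1 - τ)) * ω (dy n (k : ℤ))
          = ∫⁻ y in dy n (k : ℤ), (2 : ℝ≥0∞) ^ ((n : ℝ) * (1 - τ)) ∂ω := by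
            rw [setLIntegral_const]
        _ ≤ ∫⁻ y in dy n (k : ℤ), (edist x y) ^ (τ - 1) ∂ω := by
            refine setLIntegral_mono' (measurableSet_dy n k) fun y hy => ?_
            have e1 : τ - 1 = -(1 - τ) := by ring
            rw [e1, ENNReal.rpow_neg, ENNReal.rpow_mul, ENNReal.rpow_natCast]
            have h2 : edist x y ≤ ((2 : ℝ≥0∞) ^ n)⁻¹ := by
              rw [edist_dist]
              have h3 : ((2 : ℝ≥0∞) ^ n)⁻¹ = ENNReal.ofReal ((2 ^ n)⁻¹ : ℝ) := by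
                rw [ENNReal.ofReal_inv_of_pos (by positivity), ENNReal.ofReal_pow (by norm_num)]
                simp
              rw [h3]
              apply ENNReal.ofReal_le_ofReal
              rw [dy, mem_Ico, div_le_iff₀ hp, lt_div_iff₀ hp] at hx hy
              rw [Real.dist_eq, abs_le, ← one_div]
              constructor
              · rw [neg_le, le_div_iff₀ hp]
                nlinarith [hx.1, hx.2, hy.1, hy.2]
              · rw [le_div_iff₀ hp]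
                nlinarith [hx.1, hx.2, hy.1, hy.2]
            rw [ENNReal.le_inv_iff_le_inv]
            calc edist x y ^ (1 - τ) ≤ (((2 : ℝ≥0∞) ^ n)⁻¹) ^ (1 - τ) :=
                  ENNReal.rpow_le_rpow h2 (by linarith)
              _ = _ := by rw [ENNReal.inv_rpow]
        _ ≤ ∫⁻ y in Icc (0 : ℝ) 1, (edist x y) ^ (τ - 1) ∂ω :=
            lintegral_mono_set (hsub k hk)
    have hvol : volume (dy n (k : ℤ)) = (2 : ℝ≥0∞) ^ (-(n : ℝ)) := by
      rw [dy, Real.volume_Ico, ENNReal.rpow_neg, ENNReal.rpow_natCast]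
      have h3 : ((2 : ℝ≥0∞) ^ n)⁻¹ = ENNReal.ofReal ((2 ^ n)⁻¹ : ℝ) := by
        rw [ENNReal.ofReal_inv_of_pos (by positivity), ENNReal.ofReal_pow (by norm_num)]
        simp
      rw [h3]
      congr 1
      rw [← sub_div, add_sub_cancel_left, one_div]
    calc (2 : ℝ≥0∞) ^ ((n : ℝ) * (1 - 2 * τ)) * ω (dy n (k : ℤ)) ^ 2
        = ((2 : ℝ≥0∞) ^ ((n : ℝ) * (1 - τ)) * ω (dy n (k : ℤ))) ^ 2 *
            volume (dy n (k : ℤ)) := by
          rw [hvol, mul_pow, ← ENNReal.rpow_natCast ((2 : ℝ≥0∞) ^ ((n : ℝ) * (1 - τ))) 2,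
            ← ENNReal.rpow_mul]
          have : (2 : ℝ≥0∞) ^ ((n : ℝ) * (1 - 2 * τ)) =
              (2 : ℝ≥0∞) ^ ((n : ℝ) * (1 - τ) * ((2 : ℕ) : ℝ)) * (2 : ℝ≥0∞) ^ (-(n : ℝ)) := by
            rw [← ENNReal.rpow_add _ _ (by norm_num) (by norm_num)]
            congr 1
            push_cast
            ring
          rw [this]
          ring
      _ = ∫⁻ x in dy n (k : ℤ), ((2 : ℝ≥0∞) ^ ((n : ℝ) * (1 - τ)) * ω (dy n (k : ℤ))) ^ 2 := by
          rw [setLIntegral_const]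
      _ ≤ _ := by
          refine setLIntegral_mono' (measurableSet_dy n k) fun x hx => ?_
          gcongr
          exact h1 x hx
  calc (2 : ℝ≥0∞) ^ ((n : ℝ) * (1 - 2 * τ)) * ∑ k ∈ Finset.range (2 ^ n), ω (dy n (k : ℤ)) ^ 2
      = ∑ k ∈ Finset.range (2 ^ n),
          (2 : ℝ≥0∞) ^ ((n : ℝ) * (1 - 2 * τ)) * ω (dy n (k : ℤ)) ^ 2 := by
        rw [Finset.mul_sum]
    _ ≤ ∑ k ∈ Finset.range (2 ^ n),
          ∫⁻ x in dy n (k : ℤ), (∫⁻ y in Icc (0 : ℝ) 1, (edist x y) ^ (τ - 1) ∂ω) ^ 2 :=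
        Finset.sum_le_sum hcell
    _ = ∫⁻ x in ⋃ k ∈ Finset.range (2 ^ n), dy n (k : ℤ),
          (∫⁻ y in Icc (0 : ℝ) 1, (edist x y) ^ (τ - 1) ∂ω) ^ 2 := by
        rw [lintegral_biUnion_finset]
        · intro i _ j _ hij
          exact pairwise_disjoint_dy n (by exact_mod_cast hij)
        · exact fun k _ => measurableSet_dy n k
    _ ≤ energy τ ω := lintegral_mono_set (iUnion₂_subset hsub)

end Pool.Agent.Lib.MP_19f6dc_an
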