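import Pool.Agent.Lib.MP_19f6dc_an.Degen

set_option autoImplicit false

open MeasureTheory Set
open scoped ENNReal

namespace Pool.Agent.Lib.MP_19f6dc_an

variable {lam θ : ℝ}

/-- centred log-mass -/
noncomputable def XX (lam θ : ℝ) (n k : ℕ) : ℝ := Real.log (nu lam n k) + n * θ

/-- expectation with respect to the Bernoulli masses -/
noncomputable def Ex (lam θ : ℝ) (n : ℕ) (g : ℝ → ℝ) : ℝ :=
  ∑ k ∈ Finset.range (2 ^ n), nu lam n k * g (XX lam θ n k)

theorem Ex_zero (g : ℝ → ℝ) : Ex lam θ 0 g = g 0 := by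
  simp [Ex, XX, nu]

theorem Ex_succ (hlam : 1 < lam) (n : ℕ) (g : ℝ → ℝ) :
    Ex lam θ (n + 1) g = Ex lam θ n (fun x => 1 / lam * g (x + (Real.log (1 / lam) + θ)) +
      (1 - 1 / lam) * g (x + (Real.log (1 - 1 / lam) + θ))) := by
  have hlam0 : 0 < lam := by linarith
  have h1 : 0 < 1 - 1 / lam := by rw [sub_pos, div_lt_one hlam0]; exact hlam
  unfold Ex
  rw [sum_level_succ]
  refine Finset.sum_congr rfl fun k _ => ?_
  have hnu := nu_pos hlam n k
  have e0 : XX lam θ (n + 1) (2 * k) = XX lam θ n k + (Real.log (1 / lam) + θ) := by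
    unfold XX
    rw [nu_even, Real.log_mul hnu.ne' (by positivity)]
    push_cast; ring
  have e1 : XX lam θ (n + 1) (2 * k + 1) = XX lam θ n k + (Real.log (1 - 1 / lam) + θ) := by
    unfold XX
    rw [nu_odd, Real.log_mul hnu.ne' h1.ne']
    push_cast; ring
  rw [e0, e1, nu_even, nu_odd]
  ring

theorem Ex_add (n : ℕ) (g₁ g₂ : ℝ → ℝ) :
    Ex lam θ n (fun x => g₁ x + g₂ x) = Ex lam θ n g₁ + Ex lam θ n g₂ := by
  unfold Ex
  rw [← Finset.sum_add_distrib]
  exact Finset.sum_congr rfl fun k _ => by ring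

theorem Ex_mul (n : ℕ) (c : ℝ) (g : ℝ → ℝ) :
    Ex lam θ n (fun x => c * g x) = c * Ex lam θ n g := by
  unfold Ex
  rw [Finset.mul_sum]
  exact Finset.sum_congr rfl fun k _ => by ring

theorem Ex_mono (hlam : 1 < lam) (n : ℕ) {g₁ g₂ : ℝ → ℝ} (h : ∀ x, g₁ x ≤ g₂ x) :
    Ex lam θ n g₁ ≤ Ex lam θ n g₂ := by
  unfold Ex
  exact Finset.sum_le_sum fun k _ => mul_le_mul_of_nonneg_left (h _) (nu_pos hlam n k).le

theorem Ex_one (hlam : 1 < lam) (n : ℕ) : Ex lam θ n (fun _ => 1) = 1 := by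
  induction n with
  | zero => rw [Ex_zero]
  | succ n ih =>
    rw [Ex_succ hlam]
    simp only [mul_one, add_sub_cancel]
    exact ih

theorem Ex_const (hlam : 1 < lam) (n : ℕ) (c : ℝ) : Ex lam θ n (fun _ => c) = c := by
  have := Ex_mul (lam := lam) (θ := θ) n c (fun _ => 1)
  simp only [mul_one] at this
  rw [this, Ex_one hlam, mul_one]

section moments

variable (hlam : 1 < lam)
  (hθ : 1 / lam * (Real.log (1 / lam) + θ) + (1 - 1 / lam) * (Real.log (1 - 1 / lam) + θ) = 0)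

include hlam hθ

theorem Ex_id (n : ℕ) : Ex lam θ n (fun x => x) = 0 := by
  induction n with
  | zero => rw [Ex_zero]
  | succ n ih =>
    rw [Ex_succ hlam]
    have : (fun x : ℝ => 1 / lam * (x + (Real.log (1 / lam) + θ)) +
      (1 - 1 / lam) * (x + (Real.log (1 - 1 / lam) + θ))) = fun x => x := by
      funext x
      linear_combination hθ
    rw [this, ih]

theorem Ex_sq (n : ℕ) : Ex lam θ n (fun x => x ^ 2) =
    n * (1 / lam * (Real.log (1 / lam) + θ) ^ 2 +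
      (1 - 1 / lam) * (Real.log (1 - 1 / lam) + θ) ^ 2) := by
  induction n with
  | zero => rw [Ex_zero]; simp
  | succ n ih =>
    rw [Ex_succ hlam]
    have : (fun x : ℝ => 1 / lam * (x + (Real.log (1 / lam) + θ)) ^ 2 +
      (1 - 1 / lam) * (x + (Real.log (1 - 1 / lam) + θ)) ^ 2) =
      fun x => x ^ 2 + (1 / lam * (Real.log (1 / lam) + θ) ^ 2 +
      (1 - 1 / lam) * (Real.log (1 - 1 / lam) + θ) ^ 2) := by
      funext x
      linear_combination 2 * x * hθ
    rw [this, Ex_add, Ex_const hlam, ih]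
    push_cast
    ring

theorem Ex_four (n : ℕ) : Ex lam θ n (fun x => x ^ 4) =
    n * (1 / lam * (Real.log (1 / lam) + θ) ^ 4 +
      (1 - 1 / lam) * (Real.log (1 - 1 / lam) + θ) ^ 4) +
    3 * n * (n - 1) * (1 / lam * (Real.log (1 / lam) + θ) ^ 2 +
      (1 - 1 / lam) * (Real.log (1 - 1 / lam) + θ) ^ 2) ^ 2 := by
  induction n with
  | zero => rw [Ex_zero]; simp
  | succ n ih =>
    rw [Ex_succ hlam]
    have : (fun x : ℝ => 1 / lam * (x + (Real.log (1 / lam) + θ)) ^ 4 +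
      (1 - 1 / lam) * (x + (Real.log (1 - 1 / lam) + θ)) ^ 4) =
      fun x => x ^ 4 + (6 * (1 / lam * (Real.log (1 / lam) + θ) ^ 2 +
      (1 - 1 / lam) * (Real.log (1 - 1 / lam) + θ) ^ 2) * x ^ 2 +
      (4 * (1 / lam * (Real.log (1 / lam) + θ) ^ 3 +
      (1 - 1 / lam) * (Real.log (1 - 1 / lam) + θ) ^ 3) * x +
      (1 / lam * (Real.log (1 / lam) + θ) ^ 4 +
      (1 - 1 / lam) * (Real.log (1 - 1 / lam) + θ) ^ 4))) := by
      funext x
      linear_combination 4 * x ^ 3 * hθ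
    rw [this, Ex_add, Ex_add, Ex_add, Ex_const hlam, Ex_mul, Ex_mul, Ex_sq hlam hθ,
      Ex_id hlam hθ, ih]
    push_cast
    ring

end moments

/-- polynomial minorant of the indicator of `[c, ∞)` -/
theorem poly_minorant {β κ c u : ℝ} (hβ : 0 < β) (hκ : 0 < κ)
    (hcκ : c + β * c ^ 2 ≤ κ) :
    β / 2 * (u + β * u ^ 2 - β ^ 3 * u ^ 4 - κ) ≤ if c ≤ u then 1 else 0 := by
  have key : ∀ s : ℝ, s + s ^ 2 - s ^ 4 ≤ 2 := by
    intro s
    nlinarith [sq_nonneg (s ^ 2 - 1), sq_nonneg (s - 1)]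
  have key2 : ∀ s : ℝ, s ≤ 0 → s + s ^ 2 - s ^ 4 ≤ 0 := by
    intro s hs
    have h1 : 0 ≤ 1 + s - s ^ 3 := by
      rcases le_or_gt (-1) s with h | h
      · have : 0 ≤ -s ^ 3 := by
          have : s ^ 3 ≤ 0 := by
            rw [show s ^ 3 = s * s ^ 2 by ring]
            exact mul_nonpos_of_nonpos_of_nonneg hs (sq_nonneg s)
          linarith
        linarith
      · nlinarith [mul_pos (show 0 < -s by linarith) (show 0 < -s - 1 by linarith),
          mul_pos (mul_pos (show 0 < -s by linarith) (show 0 < -s - 1 by linarith))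
            (show 0 < -s by linarith)]
    have : s + s ^ 2 - s ^ 4 = s * (1 + s - s ^ 3) := by ring
    rw [this]
    exact mul_nonpos_of_nonpos_of_nonneg hs h1
  have e : β / 2 * (u + β * u ^ 2 - β ^ 3 * u ^ 4 - κ) =
      (β * u + (β * u) ^ 2 - (β * u) ^ 4) / 2 - β / 2 * κ := by ring
  rw [e]
  have hk : 0 < β / 2 * κ := by positivity
  split_ifs with hcu
  · have := key (β * u)
    linarith
  · push Not at hcu
    rcases le_or_gt u 0 with h | h
    · have := key2 (β * u) (mul_nonpos_of_nonneg_of_nonpos hβ.le h)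
      linarith
    · have h1 : u + β * u ^ 2 ≤ c + β * c ^ 2 := by
        have : u ^ 2 ≤ c ^ 2 := pow_le_pow_left₀ h.le hcu.le 2
        have := mul_le_mul_of_nonneg_left this hβ.le
        linarith
      have h2 : β * u + (β * u) ^ 2 = β * (u + β * u ^ 2) := by ring
      have h3 : β * (u + β * u ^ 2) ≤ β * κ := mul_le_mul_of_nonneg_left (h1.trans hcκ) hβ.le
      have h4 : 0 ≤ (β * u) ^ 4 := by positivity
      linarith

/-- Fluctuations: the centred log-mass exceeds `c √n` with probability at least `δ`. -/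
theorem fluctuation (hlam : 1 < lam) (hlam2 : lam ≠ 2)
    (hθ : 1 / lam * (Real.log (1 / lam) + θ) + (1 - 1 / lam) * (Real.log (1 - 1 / lam) + θ) = 0) :
    ∃ c > 0, ∃ δ > 0, ∀ n : ℕ, 1 ≤ n →
      δ ≤ Ex lam θ n (fun x => if c * √n ≤ x then 1 else 0) := by
  have hlam0 : 0 < lam := by linarith
  have hp0 : 0 < 1 / lam := by positivity
  have hp1 : 0 < 1 - 1 / lam := by rw [sub_pos, div_lt_one hlam0]; exact hlam
  set ξ₀ := Real.log (1 / lam) + θ with hξ₀
  set ξ₁ := Real.log (1 - 1 / lam) + θ with hξ₁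
  set v := 1 / lam * ξ₀ ^ 2 + (1 - 1 / lam) * ξ₁ ^ 2 with hv
  have hξ0ne : ξ₀ ≠ 0 := by
    intro h0
    rw [h0] at hθ
    have h1 : ξ₁ = 0 := by
      have : (1 - 1 / lam) * ξ₁ = 0 := by linarith
      exact (mul_eq_zero.mp this).resolve_left hp1.ne'
    have h2 : Real.log (1 / lam) = Real.log (1 - 1 / lam) := by
      have e1 : Real.log (1 / lam) = ξ₀ - θ := by rw [hξ₀]; ring
      have e2 : Real.log (1 - 1 / lam) = ξ₁ - θ := by rw [hξ₁]; ring
      rw [e1, e2, h0, h1]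
    have h3 : 1 / lam = 1 - 1 / lam := Real.log_injOn_pos hp0 hp1 h2
    apply hlam2
    field_simp at h3
    linarith
  have hvpos : 0 < v := by
    have h1 : 0 < 1 / lam * ξ₀ ^ 2 := by positivity
    have h2 : 0 ≤ (1 - 1 / lam) * ξ₁ ^ 2 := by positivity
    linarith
  set κ4 := 1 / lam * ξ₀ ^ 4 + (1 - 1 / lam) * ξ₁ ^ 4 with hκ4
  have hκ40 : 0 ≤ κ4 := by positivity
  set C := κ4 + 3 * v ^ 2 with hC
  have hCpos : 0 < C := by positivity
  -- parameters
  set β := √(v / (4 * C)) with hβ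
  have hβpos : 0 < β := Real.sqrt_pos.mpr (by positivity)
  have hβ2 : β ^ 2 = v / (4 * C) := Real.sq_sqrt (by positivity)
  have hβC : β ^ 3 * C = β * v / 4 := by
    rw [show β ^ 3 * C = β * (β ^ 2) * C by ring, hβ2]
    field_simp
  set κ := β * v / 4 with hκ
  have hκpos : 0 < κ := by positivity
  set c := min 1 (κ / (1 + β)) with hc
  have hcpos : 0 < c := lt_min one_pos (by positivity)
  have hcκ : c + β * c ^ 2 ≤ κ := by
    have h1 : c ≤ 1 := min_le_left _ _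
    have h2 : c ≤ κ / (1 + β) := min_le_right _ _
    rw [le_div_iff₀ (by positivity)] at h2
    have h3 : c ^ 2 ≤ c := by nlinarith
    have := mul_le_mul_of_nonneg_left h3 hβpos.le
    linarith
  refine ⟨c, hcpos, β / 2 * (β * v / 2), by positivity, fun n hn => ?_⟩
  have hn0 : (0:ℝ) < n := by exact_mod_cast hn
  have hn1 : (1:ℝ) ≤ n := by exact_mod_cast hn
  have hsq : 0 < √(n:ℝ) := Real.sqrt_pos.mpr hn0
  have hsq2 : √(n:ℝ) ^ 2 = n := Real.sq_sqrt hn0.le
  have hmin : ∀ x : ℝ, β / 2 * (x / √n + β * (x / √n) ^ 2 - β ^ 3 * (x / √n) ^ 4 - κ) ≤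
      if c * √n ≤ x then 1 else 0 := by
    intro x
    have := poly_minorant (u := x / √n) hβpos hκpos hcκ
    simp only [le_div_iff₀ hsq] at this
    exact this
  refine le_trans ?_ (Ex_mono hlam n hmin)
  have e1 : (fun x : ℝ => β / 2 * (x / √n + β * (x / √n) ^ 2 - β ^ 3 * (x / √n) ^ 4 - κ)) =
      fun x => (β / 2 / √n) * x + ((β / 2 * β / n) * x ^ 2 +
        ((-(β / 2 * β ^ 3 / n ^ 2)) * x ^ 4 + (-(β / 2 * κ)))) := by
    funext x
    rw [div_pow, div_pow, hsq2, show √(n:ℝ) ^ 4 = (√(n:ℝ) ^ 2) ^ 2 by ring, hsq2]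
    ring
  rw [e1, Ex_add, Ex_add, Ex_add, Ex_mul, Ex_mul, Ex_mul, Ex_const hlam, Ex_id hlam hθ,
    Ex_sq hlam hθ, Ex_four hlam hθ]
  rw [← hv, ← hκ4]
  have h4 : n * κ4 + 3 * n * (n - 1) * v ^ 2 ≤ n ^ 2 * C := by
    have e : (n:ℝ) ^ 2 * C - (n * κ4 + 3 * n * (n - 1) * v ^ 2) =
        n * (n - 1) * κ4 + 3 * n * v ^ 2 := by rw [hC]; ring
    have e1 := mul_nonneg (mul_nonneg hn0.le (sub_nonneg.mpr hn1)) hκ40
    have e2 := mul_nonneg hn0.le (sq_nonneg v)
    linarith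
  have h5 : β / 2 * β ^ 3 / n ^ 2 * (n * κ4 + 3 * n * (n - 1) * v ^ 2) ≤ β / 2 * (β ^ 3 * C) := by
    calc β / 2 * β ^ 3 / n ^ 2 * (n * κ4 + 3 * n * (n - 1) * v ^ 2)
        ≤ β / 2 * β ^ 3 / n ^ 2 * (n ^ 2 * C) := by gcongr
      _ = β / 2 * (β ^ 3 * C) := by field_simp
  rw [hβC] at h5
  have h6 : β / 2 * β / n * (n * v) = β / 2 * (β * v) := by field_simp
  have h7 : β / 2 * κ = β / 2 * (β * v / 4) := by rw [hκ]
  rw [mul_zero, neg_mul, h6, h7]
  linarith

end Pool.Agent.Lib.MP_19f6dc_an
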