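import Pool.Agent.Lib.MP_19f6dc_an.CasePos

set_option autoImplicit false

open MeasureTheory Set Filter
open scoped ENNReal

namespace Pool.Agent.Lib.MP_19f6dc_an

variable {lam gam q : ℝ}

/-! ### The entropy function -/

theorem h_eq (p : ℝ) : h p = Real.binEntropy (2⁻¹ - |p - 1 / 2|) := by
  rw [h_eq_binEntropy]
  rcases le_total p (1 / 2) with hp | hp
  · rw [abs_of_nonpos (by linarith)]
    congr 1
    ring
  · rw [abs_of_nonneg (by linarith), ← Real.binEntropy_one_sub]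
    congr 1
    ring

theorem h_le_iff {p p' : ℝ} (hp : p ∈ Icc (0:ℝ) 1) (hp' : p' ∈ Icc (0:ℝ) 1) :
    h p ≤ h p' ↔ |p' - 1 / 2| ≤ |p - 1 / 2| := by
  have hmem : ∀ x ∈ Icc (0:ℝ) 1, 2⁻¹ - |x - 1 / 2| ∈ Icc (0:ℝ) 2⁻¹ := by
    intro x hx
    have h1 : |x - 1 / 2| ≤ 1 / 2 := by
      rw [abs_le]; constructor <;> linarith [hx.1, hx.2]
    have h2 := abs_nonneg (x - 1 / 2)
    constructor <;> linarith
  rw [h_eq p, h_eq p', Real.binEntropy_strictMonoOn.le_iff_le (hmem p hp) (hmem p' hp')]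
  constructor <;> intro h <;> linarith

theorem h_nonneg {p : ℝ} (hp : p ∈ Icc (0:ℝ) 1) : 0 ≤ h p := by
  rw [h_eq_binEntropy]; exact Real.binEntropy_nonneg hp.1 hp.2

/-- strict lower bound in the interior of an interval -/
theorem h_interior {p p' z : ℝ} (hp : p ∈ Icc (0:ℝ) 1) (hp' : p' ∈ Icc (0:ℝ) 1) (h1 : p < z)
    (h2 : z < p') : min (h p) (h p') < h z := by
  rw [h_eq_binEntropy, h_eq_binEntropy, h_eq_binEntropy]
  refine Real.strictConcave_binEntropy.lt_on_openSegment hp hp' (h1.trans h2).ne ?_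
  rw [openSegment_eq_Ioo (h1.trans h2)]
  exact ⟨h1, h2⟩

theorem h_between {p p' z : ℝ} (hp : p ∈ Icc (0:ℝ) 1) (hp' : p' ∈ Icc (0:ℝ) 1) (h1 : p ≤ z)
    (h2 : z ≤ p') : min (h p) (h p') ≤ h z := by
  rcases eq_or_lt_of_le h1 with h | h
  · rw [← h]; exact min_le_left _ _
  · rcases eq_or_lt_of_le h2 with h' | h'
    · rw [h']; exact min_le_right _ _
    · exact (h_interior hp hp' h h').le

/-! ### P0 -/

theorem P0_mem (hgam : 1 < gam) {y : ℝ} (hy : -1 ≤ y) : P0 gam y ∈ Icc (0:ℝ) 1 := by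
  unfold P0
  constructor
  · exact div_nonneg (by linarith) (by linarith)
  · rw [div_le_one (by linarith)]; linarith

theorem P0_lt (hgam : 1 < gam) {y z : ℝ} (hy : -1 ≤ y) (hyz : y < z) : P0 gam y < P0 gam z := by
  unfold P0
  rw [div_lt_div_iff₀ (by linarith) (by linarith)]
  nlinarith

theorem P0_le (hgam : 1 < gam) {y z : ℝ} (hy : -1 ≤ y) (hyz : y ≤ z) : P0 gam y ≤ P0 gam z := by
  rcases eq_or_lt_of_le hyz with h | h
  · rw [h]
  · exact (P0_lt hgam hy h).le

theorem p0_coe (gam y : ℝ) : p0 gam (y : EReal) = P0 gam y := by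
  unfold p0 P0
  rw [if_neg (EReal.coe_ne_top y), EReal.toReal_coe]

theorem p0_mem (hgam : 1 < gam) {y : EReal} (hy : ((-1 : ℝ) : EReal) ≤ y) : p0 gam y ∈ Icc (0:ℝ) 1 := by
  induction y with
  | bot => exact absurd hy (not_le.mpr (EReal.bot_lt_coe _))
  | top => simp [p0]
  | coe y =>
    rw [p0_coe]
    exact P0_mem hgam (EReal.coe_le_coe_iff.mp hy)

theorem r0_gt (hlam : 1 ≤ lam) (hgam : 1 < gam) : ((-1 : ℝ) : EReal) < r0 lam gam := by
  unfold r0
  split_ifs with h
  · exact EReal.coe_lt_top (-1)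
  · have : 0 < lam - 1 := by
      rcases eq_or_lt_of_le hlam with h1 | h1
      · exact absurd h1.symm h
      · linarith
    have h2 : (-1:ℝ) < (gam - lam) / (lam - 1) := by
      rw [lt_div_iff₀ this]; linarith
    exact EReal.coe_lt_coe_iff.mpr h2

theorem alpha_ge (hlam : 1 ≤ lam) (hgam : 1 < gam) (hq : gam - 1 ≤ q) :
    ((-1 : ℝ) : EReal) ≤ alpha lam gam q := by
  unfold alpha
  refine le_min (EReal.coe_le_coe_iff.mpr (show (-1:ℝ) ≤ 0 by norm_num))
    (le_min (r0_gt hlam hgam).le ?_)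
  unfold r1
  exact EReal.coe_le_coe_iff.mpr (show (-1:ℝ) ≤ q - gam by linarith)

theorem alpha_le_zero : alpha lam gam q ≤ 0 := min_le_left _ _
theorem zero_le_beta : 0 ≤ beta lam gam q := le_max_left _ _

theorem bddBelow_set (hlam : 1 ≤ lam) (hgam : 1 < gam) (hq : gam - 1 ≤ q) :
    BddBelow ((fun y : EReal => h (p0 gam y)) '' Icc (alpha lam gam q) (beta lam gam q)) := by
  refine ⟨0, ?_⟩
  rintro _ ⟨y, hy, rfl⟩
  exact h_nonneg (p0_mem hgam ((alpha_ge hlam hgam hq).trans hy.1))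

theorem theta0_le (hlam : 1 ≤ lam) (hgam : 1 < gam) (hq : gam - 1 ≤ q) {y : EReal}
    (hy : y ∈ Icc (alpha lam gam q) (beta lam gam q)) : theta0 lam gam q ≤ h (p0 gam y) :=
  csInf_le (bddBelow_set hlam hgam hq) (mem_image_of_mem _ hy)

theorem le_theta0 {c : ℝ} (hc : ∀ y ∈ Icc (alpha lam gam q) (beta lam gam q), c ≤ h (p0 gam y)) :
    c ≤ theta0 lam gam q := by
  refine le_csInf ⟨_, mem_image_of_mem _ ⟨alpha_le_zero, zero_le_beta⟩⟩ ?_
  rintro _ ⟨y, hy, rfl⟩
  exact hc y hy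

theorem theta0_nonneg (hlam : 1 ≤ lam) (hgam : 1 < gam) (hq : gam - 1 ≤ q) :
    0 ≤ theta0 lam gam q :=
  le_theta0 fun _ hy => h_nonneg (p0_mem hgam ((alpha_ge hlam hgam hq).trans hy.1))

/-! ### real endpoints -/

/-- real version of `α` -/
noncomputable def aR (lam gam q : ℝ) : ℝ := min 0 (min ((gam - lam) / (lam - 1)) (q - gam))
/-- real version of `β` -/
noncomputable def bR (lam gam q : ℝ) : ℝ := max 0 (max ((gam - lam) / (lam - 1)) (q - gam))

theorem coe_min (a b : ℝ) : ((min a b : ℝ) : EReal) = min (a : EReal) (b : EReal) :=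
  EReal.coe_strictMono.monotone.map_min

theorem coe_max (a b : ℝ) : ((max a b : ℝ) : EReal) = max (a : EReal) (b : EReal) :=
  EReal.coe_strictMono.monotone.map_max

theorem alpha_eq (hlam : lam ≠ 1) : alpha lam gam q = ((aR lam gam q : ℝ) : EReal) := by
  unfold alpha aR r0 r1
  rw [if_neg hlam, coe_min, coe_min]
  rfl

theorem beta_eq (hlam : lam ≠ 1) : beta lam gam q = ((bR lam gam q : ℝ) : EReal) := by
  unfold beta bR r0 r1
  rw [if_neg hlam, coe_max, coe_max]
  rfl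

theorem theta0_le_real (hlam : 1 < lam) (hgam : 1 < gam) (hq : gam - 1 ≤ q) {y : ℝ}
    (hy : y ∈ Icc (aR lam gam q) (bR lam gam q)) : theta0 lam gam q ≤ h (P0 gam y) := by
  have := theta0_le (y := (y : EReal)) hlam.le hgam hq (by
    rw [alpha_eq hlam.ne', beta_eq hlam.ne']
    exact ⟨by exact_mod_cast hy.1, by exact_mod_cast hy.2⟩)
  rwa [p0_coe] at this

theorem le_theta0_real (hlam : 1 < lam) {c : ℝ}
    (hc : ∀ y ∈ Icc (aR lam gam q) (bR lam gam q), c ≤ h (P0 gam y)) : c ≤ theta0 lam gam q := by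
  refine le_theta0 fun y hy => ?_
  rw [alpha_eq hlam.ne', beta_eq hlam.ne'] at hy
  induction y with
  | bot => simp at hy
  | top => simp at hy
  | coe y =>
    rw [p0_coe]
    exact hc y ⟨by exact_mod_cast hy.1, by exact_mod_cast hy.2⟩

theorem of_theta0_pos (hlam : 1 ≤ lam) (hgam : 1 < gam) (hq : gam - 1 ≤ q)
    (hθ : 0 < theta0 lam gam q) : 1 < lam ∧ gam - 1 < q := by
  constructor
  · rcases eq_or_lt_of_le hlam with h1 | h1
    · exfalso
      have hb : beta lam gam q = ⊤ := by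
        unfold beta r0
        rw [if_pos h1.symm]
        simp
      have := theta0_le (y := ⊤) hlam hgam hq ⟨le_top, by rw [hb]⟩
      have h2 : h (p0 gam ⊤) = 0 := by simp [p0, h]
      linarith
    · exact h1
  · rcases eq_or_lt_of_le hq with h1 | h1
    · exfalso
      have hr : r1 gam q = ((-1 : ℝ) : EReal) := by
        unfold r1; congr 1; linarith
      have ha : alpha lam gam q ≤ ((-1 : ℝ) : EReal) := by
        rw [← hr]
        exact (min_le_right _ _).trans (min_le_right _ _)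
      have := theta0_le (y := ((-1 : ℝ) : EReal)) hlam hgam hq ⟨ha, by
        rw [← hr]
        exact (le_max_right _ _).trans (le_max_right _ _)⟩
      rw [p0_coe] at this
      have h2 : h (P0 gam (-1)) = 0 := by simp [P0, h]
      linarith
    · exact h1

end Pool.Agent.Lib.MP_19f6dc_an
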