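import Pool.Agent.Lib.MP_19f6dc_an.Energy

set_option autoImplicit false

open MeasureTheory Set
open scoped ENNReal

namespace Pool.Agent.Lib.MP_19f6dc_an

theorem measurable_cell_mass (n : ℕ) (μ : Measure ℝ) :
    Measurable (fun x : ℝ => μ (dy n ⌊x * 2 ^ n⌋)) := by
  have h1 : Measurable (fun x : ℝ => ⌊x * 2 ^ n⌋) :=
    Int.measurable_floor.comp (measurable_id.mul_const _)
  exact (measurable_of_countable (fun k : ℤ => μ (dy n k))).comp h1

/-- If the dyadic potential of `μ` is finite `μ`-almost everywhere, then `μ` charges no set of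
zero capacity. -/
theorem Qap_ne_zero {τ : ℝ} (hτ0 : 0 < τ) (hτ1 : τ ≤ 1 / 2) (μ : Measure ℝ) [IsFiniteMeasure μ]
    (hfin : ∀ᵐ x ∂μ, ∑' m : ℕ, (2 : ℝ≥0∞) ^ ((m : ℝ) * (1 - 2 * τ)) * μ (dy m ⌊x * 2 ^ m⌋) ≠ ⊤)
    {K : Set ℝ} (hK : MeasurableSet K) (hμK : μ K ≠ 0) : Qap τ K ≠ 0 := by
  set φ : ℝ → ℝ≥0∞ := fun x =>
    ∑' m : ℕ, (2 : ℝ≥0∞) ^ ((m : ℝ) * (1 - 2 * τ)) * μ (dy m ⌊x * 2 ^ m⌋) with hφ
  have hφm : Measurable φ := Measurable.tsum fun m => (measurable_cell_mass m μ).const_mul _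
  -- choose a level set
  have hex : ∃ N : ℕ, μ (K ∩ {x | φ x ≤ N}) ≠ 0 := by
    by_contra hcon
    push Not at hcon
    apply hμK
    have h1 : μ (⋃ N : ℕ, K ∩ {x | φ x ≤ N}) = 0 := measure_iUnion_null hcon
    refine measure_mono_null_ae ?_ h1
    filter_upwards [hfin] with x hx hxK
    obtain ⟨N, hN⟩ := ENNReal.exists_nat_gt hx
    exact mem_iUnion.mpr ⟨N, hxK, hN.le⟩
  obtain ⟨N, hN⟩ := hex
  have hmeas : MeasurableSet (K ∩ {x | φ x ≤ N}) := hK.inter (hφm measurableSet_Iic)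
  obtain ⟨K', hK'sub, hK'comp, hK'pos⟩ := hmeas.exists_lt_isCompact (pos_iff_ne_zero.mpr hN)
  set ω := μ.restrict K' with hω
  have hfinω : IsFiniteMeasure ω := by rw [hω]; infer_instance
  have hsupp : ω.support ⊆ K := by
    refine (Measure.support_subset_of_isClosed hK'comp.isClosed ?_).trans
      (hK'sub.trans inter_subset_left)
    rw [mem_ae_iff, hω, Measure.restrict_apply hK'comp.isClosed.measurableSet.compl]
    simp
  have hωK : ω K = μ K' := by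
    rw [hω, Measure.restrict_apply hK, inter_eq_right.mpr (hK'sub.trans inter_subset_left)]
  obtain ⟨C, hC, hen⟩ := energy_le hτ0 hτ1
  have hle : ∀ s : Set ℝ, ω s ≤ μ s := fun s => Measure.restrict_apply_le K' s
  have hQ : ∑' m : ℕ, (2 : ℝ≥0∞) ^ ((m : ℝ) * (1 - 2 * τ)) * Qn m ω ≤ ∫⁻ x, φ x ∂ω := by
    rw [hφ, lintegral_tsum fun m => ((measurable_cell_mass m μ).const_mul _).aemeasurable]
    refine ENNReal.tsum_le_tsum fun m => ?_
    rw [lintegral_const_mul _ (measurable_cell_mass m μ), lintegral_eq_tsum_dy m]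
    gcongr
    unfold Qn
    refine ENNReal.tsum_le_tsum fun k => ?_
    calc ω (dy m k) ^ 2 ≤ μ (dy m k) * ω (dy m k) := by
          rw [sq]; exact mul_le_mul' (hle _) le_rfl
      _ = ∫⁻ x in dy m k, μ (dy m k) ∂ω := by rw [setLIntegral_const]
      _ = ∫⁻ x in dy m k, μ (dy m ⌊x * 2 ^ m⌋) ∂ω := by
          refine setLIntegral_congr_fun (measurableSet_dy m k) fun x hx => ?_
          rw [(mem_dy_iff m k x).mp hx]
  have hint : ∫⁻ x, φ x ∂ω ≤ N * μ K' := by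
    calc ∫⁻ x, φ x ∂ω = ∫⁻ x in K', φ x ∂μ := by rw [hω]
      _ ≤ ∫⁻ x in K', (N : ℝ≥0∞) ∂μ :=
          setLIntegral_mono' hK'comp.isClosed.measurableSet fun x hx => (hK'sub hx).2
      _ = N * μ K' := by rw [setLIntegral_const]
  have hE : energy τ ω ≠ ⊤ := by
    refine ne_top_of_le_ne_top ?_ (hen ω)
    refine ENNReal.mul_ne_top hC (ne_top_of_le_ne_top ?_ (hQ.trans hint))
    exact ENNReal.mul_ne_top (ENNReal.natCast_ne_top N) (measure_ne_top _ _)
  have hpos : (ω K) ^ 2 / energy τ ω ≠ 0 := by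
    rw [hωK]
    exact ENNReal.div_ne_zero.mpr ⟨pow_ne_zero 2 hK'pos.ne', hE⟩
  intro hzero
  apply hpos
  have hle2 : (ω K) ^ 2 / energy τ ω ≤ Qap τ K := by
    unfold Qap
    exact le_iSup_of_le ω (le_iSup_of_le hfinω (le_iSup_of_le hsupp le_rfl))
  exact le_antisymm (hle2.trans hzero.le) zero_le

/-! ### sums over the tree -/

theorem sum_range_two_mul (F : ℕ → ℝ) (N : ℕ) :
    ∑ k ∈ Finset.range (2 * N), F k = ∑ k ∈ Finset.range N, (F (2 * k) + F (2 * k + 1)) := by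
  induction N with
  | zero => simp
  | succ N ih =>
    rw [Finset.sum_range_succ _ N, ← ih, show 2 * (N + 1) = 2 * N + 1 + 1 by ring,
      Finset.sum_range_succ, Finset.sum_range_succ]
    ring

theorem sum_level_succ (F : ℕ → ℝ) (n : ℕ) :
    ∑ k ∈ Finset.range (2 ^ (n + 1)), F k =
      ∑ k ∈ Finset.range (2 ^ n), (F (2 * k) + F (2 * k + 1)) := by
  rw [pow_succ, mul_comm, sum_range_two_mul]

variable {lam gam q : ℝ}

/-- masses outside `[0,1)` vanish -/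
theorem measure_dy_eq_zero {f : ℝ → ℝ}
    (hf : IsDeRham lam gam q f) {μ : Measure ℝ} (hμ : IsDeRhamMeasure f μ) (n : ℕ) (k : ℤ)
    (hk : ¬ (0 ≤ k ∧ k < 2 ^ n)) : μ (dy n k) = 0 := by
  have := hμ.prob
  have hp : (0:ℝ) < 2 ^ n := by positivity
  have h01 : μ (Ico (0:ℝ) 1)ᶜ = 0 := by
    rw [measure_compl measurableSet_Ico (measure_ne_top _ _), measure_univ,
      hμ.cdf 1 ⟨zero_le_one, le_refl _⟩, hf.map_one]
    simp
  refine measure_mono_null (fun x hx => ?_) h01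
  rw [mem_compl_iff, mem_Ico]
  intro hx'
  apply hk
  have h1 := (mem_dy_iff n k x).mp hx
  rw [← h1]
  refine ⟨Int.floor_nonneg.mpr (by nlinarith [hx'.1]), ?_⟩
  rw [Int.floor_lt]
  push_cast
  nlinarith [hx'.2]

/-- integrals of functions of the cell index -/
theorem lintegral_cell (hlam : 0 < lam) (hgam : 1 < gam) (hq : 0 < q) {f : ℝ → ℝ}
    (hf : IsDeRham lam gam q f) {μ : Measure ℝ} (hμ : IsDeRhamMeasure f μ) (n : ℕ)
    (g : ℤ → ℝ≥0∞) :
    ∫⁻ x, g ⌊x * 2 ^ n⌋ ∂μ =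
      ∑ k ∈ Finset.range (2 ^ n), g k * ENNReal.ofReal (ms lam gam q n k) := by
  rw [lintegral_eq_tsum_dy n]
  have h1 : ∀ k : ℤ, ∫⁻ x in dy n k, g ⌊x * 2 ^ n⌋ ∂μ = g k * μ (dy n k) := by
    intro k
    rw [← setLIntegral_const]
    refine setLIntegral_congr_fun (measurableSet_dy n k) fun x hx => ?_
    rw [(mem_dy_iff n k x).mp hx]
  simp_rw [h1]
  have h2 : ∑' k : ℤ, g k * μ (dy n k) =
      ∑ k ∈ (Finset.range (2 ^ n)).image (fun k : ℕ => (k : ℤ)), g k * μ (dy n k) := by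
    rw [tsum_eq_sum]
    intro k hk
    rw [measure_dy_eq_zero hf hμ n k, mul_zero]
    rintro ⟨h0, h1⟩
    apply hk
    rw [Finset.mem_image]
    refine ⟨k.toNat, ?_, Int.toNat_of_nonneg h0⟩
    rw [Finset.mem_range]
    have : ((k.toNat : ℤ)) < ((2 ^ n : ℕ) : ℤ) := by
      rw [Int.toNat_of_nonneg h0]; push_cast; exact h1
    exact_mod_cast this
  rw [h2, Finset.sum_image (fun a _ b _ h => by exact_mod_cast h)]
  refine Finset.sum_congr rfl fun k hk => ?_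
  rw [measure_dy hlam hgam hq hf hμ n k (Finset.mem_range.mp hk)]

end Pool.Agent.Lib.MP_19f6dc_an
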