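import Pool.Agent.Lib.MP_19f6dc_an.Defs

set_option autoImplicit false

open MeasureTheory Set
open scoped ENNReal

namespace Pool.Agent.Lib.MP_19f6dc_an

/-- State maps. -/
noncomputable def T0 (lam gam y : ℝ) : ℝ := (y + gam - lam) / lam
noncomputable def T1 (gam q y : ℝ) : ℝ := ((q - 1) * y + q - gam) / (y + gam)
/-- Branch probabilities. -/
noncomputable def P0 (gam y : ℝ) : ℝ := (y + 1) / (y + gam)
noncomputable def P1 (gam y : ℝ) : ℝ := (gam - 1) / (y + gam)

/-- normalized Mobius map -/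
noncomputable def phi (y z : ℝ) : ℝ := z * (y + 1) / (y * z + 1)

/-- the state of the dyadic interval number `k` of level `n` -/
noncomputable def st (lam gam q : ℝ) : ℕ → ℕ → ℝ
  | 0, _ => 0
  | n + 1, k => if k % 2 = 0 then T0 lam gam (st lam gam q n (k / 2))
      else T1 gam q (st lam gam q n (k / 2))

/-- the mass of the dyadic interval number `k` of level `n` -/
noncomputable def ms (lam gam q : ℝ) : ℕ → ℕ → ℝ
  | 0, _ => 1
  | n + 1, k => ms lam gam q n (k / 2) *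
      (if k % 2 = 0 then P0 gam (st lam gam q n (k / 2)) else P1 gam (st lam gam q n (k / 2)))

variable {lam gam q : ℝ}

theorem st_even (n k : ℕ) : st lam gam q (n + 1) (2 * k) = T0 lam gam (st lam gam q n k) := by
  simp [st]

theorem st_odd (n k : ℕ) : st lam gam q (n + 1) (2 * k + 1) = T1 gam q (st lam gam q n k) := by
  have h1 : (2 * k + 1) % 2 = 1 := by omega
  have h2 : (2 * k + 1) / 2 = k := by omega
  simp [st, h1, h2]

theorem ms_even (n k : ℕ) :
    ms lam gam q (n + 1) (2 * k) = ms lam gam q n k * P0 gam (st lam gam q n k) := by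
  simp [ms]

theorem ms_odd (n k : ℕ) :
    ms lam gam q (n + 1) (2 * k + 1) = ms lam gam q n k * P1 gam (st lam gam q n k) := by
  have h1 : (2 * k + 1) % 2 = 1 := by omega
  have h2 : (2 * k + 1) / 2 = k := by omega
  simp [ms, h1, h2]

theorem T0_gt (hlam : 0 < lam) (hgam : 1 < gam) {y : ℝ} (hy : -1 < y) : -1 < T0 lam gam y := by
  unfold T0
  rw [lt_div_iff₀ hlam]
  linarith

theorem T1_gt (hgam : 1 < gam) (hq : 0 < q) {y : ℝ} (hy : -1 < y) : -1 < T1 gam q y := by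
  unfold T1
  rw [lt_div_iff₀ (by linarith)]
  nlinarith

theorem st_gt (hlam : 0 < lam) (hgam : 1 < gam) (hq : 0 < q) (n k : ℕ) :
    -1 < st lam gam q n k := by
  induction n generalizing k with
  | zero => simp [st]
  | succ n ih =>
    rw [st]
    split_ifs
    · exact T0_gt hlam hgam (ih _)
    · exact T1_gt hgam hq (ih _)

theorem P0_pos (hgam : 1 < gam) {y : ℝ} (hy : -1 < y) : 0 < P0 gam y := by
  unfold P0
  exact div_pos (by linarith) (by linarith)

theorem P1_pos (hgam : 1 < gam) {y : ℝ} (hy : -1 < y) : 0 < P1 gam y := by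
  unfold P1
  exact div_pos (by linarith) (by linarith)

theorem P0_add_P1 (hgam : 1 < gam) {y : ℝ} (hy : -1 < y) : P0 gam y + P1 gam y = 1 := by
  unfold P0 P1
  rw [← add_div, div_eq_one_iff_eq (by linarith)]
  ring

theorem ms_pos (hlam : 0 < lam) (hgam : 1 < gam) (hq : 0 < q) (n k : ℕ) :
    0 < ms lam gam q n k := by
  induction n generalizing k with
  | zero => simp [ms]
  | succ n ih =>
    rw [ms]
    refine mul_pos (ih _) ?_
    split_ifs
    · exact P0_pos hgam (st_gt hlam hgam hq _ _)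
    · exact P1_pos hgam (st_gt hlam hgam hq _ _)

theorem phi_den_pos {y z : ℝ} (hy : -1 < y) (hz0 : 0 ≤ z) (hz1 : z ≤ 1) : 0 < y * z + 1 := by
  nlinarith [mul_nonneg (show (0:ℝ) ≤ y + 1 by linarith) hz0]

theorem phi_zero (y : ℝ) : phi y 0 = 0 := by simp [phi]

theorem phi_one {y : ℝ} (hy : -1 < y) : phi y 1 = 1 := by
  unfold phi
  rw [mul_one, one_mul, div_self (by linarith)]

/-- algebraic core of the two composition rules -/
theorem alg_core {z a D E : ℝ} (hD : 0 < D) (hE : 0 < E) :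
    z / D * a / (E / D) = z * a / E := by
  field_simp

theorem phi_F0 (hlam : 0 < lam) (hgam : 1 < gam) {y z : ℝ} (hy : -1 < y) (hz0 : 0 ≤ z)
    (hz1 : z ≤ 1) : phi y (F0 lam gam z) = P0 gam y * phi (T0 lam gam y) z := by
  have hd1 : 0 < (gam - lam) * z + lam := by
    have : (gam - lam) * z + lam = lam * (1 - z) + gam * z := by ring
    rw [this]
    rcases eq_or_lt_of_le hz0 with h | h
    · rw [← h]; simp [hlam]
    · nlinarith [mul_pos (show (0:ℝ) < gam by linarith) h,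
        mul_nonneg hlam.le (show (0:ℝ) ≤ 1 - z by linarith)]
  have hd2 : 0 < y + gam := by linarith
  have hd3 : 0 < T0 lam gam y * z + 1 := phi_den_pos (T0_gt hlam hgam hy) hz0 hz1
  have e0 : T0 lam gam y * z + 1 = ((y + gam - lam) * z + lam) / lam := by
    unfold T0; field_simp
  have hd3' : 0 < (y + gam - lam) * z + lam := by
    rw [e0] at hd3
    exact (div_pos_iff_of_pos_right hlam).mp hd3
  have e1 : T0 lam gam y + 1 = (y + gam) / lam := by unfold T0; field_simp; ring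
  unfold phi F0 P0
  rw [e0, e1]
  generalize hD : (gam - lam) * z + lam = D at *
  have hE : (y + gam - lam) * z + lam = y * z + D := by rw [← hD]; ring
  rw [hE] at hd3' ⊢
  generalize hE' : y * z + D = E at *
  have e2 : y * (z / D) + 1 = E / D := by
    rw [← hE']; field_simp
  rw [e2, alg_core hd1 hd3']
  field_simp

theorem F1_zero (gam q : ℝ) : F1 gam q 0 = 1 / gam := by simp [F1]

theorem phi_F1 (hgam : 1 < gam) (hq : 0 < q) {y z : ℝ} (hy : -1 < y) (hz0 : 0 ≤ z)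
    (hz1 : z ≤ 1) : phi y (F1 gam q z) = P0 gam y + P1 gam y * phi (T1 gam q y) z := by
  have hd1 : 0 < (q - gam) * z + gam := by
    have : (q - gam) * z + gam = gam * (1 - z) + q * z := by ring
    rw [this]
    rcases eq_or_lt_of_le hz0 with h | h
    · rw [← h]; simp; linarith
    · nlinarith [mul_pos hq h,
        mul_nonneg (show (0:ℝ) ≤ gam by linarith) (show (0:ℝ) ≤ 1 - z by linarith)]
  have hd2 : 0 < y + gam := by linarith
  have hd3 : 0 < T1 gam q y * z + 1 := phi_den_pos (T1_gt hgam hq hy) hz0 hz1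
  have e1 : T1 gam q y * z + 1 = (((q - 1) * y + q - gam) * z + (y + gam)) / (y + gam) := by
    unfold T1; field_simp
  have hd3' : 0 < ((q - 1) * y + q - gam) * z + (y + gam) := by
    rw [e1] at hd3
    exact (div_pos_iff_of_pos_right hd2).mp hd3
  have e2 : T1 gam q y + 1 = q * (y + 1) / (y + gam) := by unfold T1; field_simp; ring
  unfold phi F1 P0 P1
  rw [e1, e2]
  generalize hD : (q - gam) * z + gam = D at *
  have hE : ((q - 1) * y + q - gam) * z + (y + gam) = y * ((q - 1) * z + 1) + D := by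
    rw [← hD]; ring
  rw [hE] at hd3' ⊢
  generalize hE' : y * ((q - 1) * z + 1) + D = E at *
  have e3 : y * (((q - 1) * z + 1) / D) + 1 = E / D := by
    rw [← hE']; field_simp
  rw [e3, alg_core hd1 hd3']
  field_simp
  rw [← hE', ← hD]
  ring

theorem phi_F1_zero (hgam : 1 < gam) {y : ℝ} (hy : -1 < y) :
    phi y (F1 gam q 0) = P0 gam y := by
  have hd2 : 0 < y + gam := by linarith
  have hg : 0 < gam := by linarith
  rw [F1_zero]
  unfold phi P0
  have : y * (1 / gam) + 1 = (y + gam) / gam := by field_simp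
  rw [this]
  field_simp

/-- Range of `f`. -/
theorem IsDeRham.mem_Icc {f : ℝ → ℝ} (hf : IsDeRham lam gam q f) {x : ℝ} (hx : x ∈ Icc (0:ℝ) 1) :
    f x ∈ Icc (0:ℝ) 1 := by
  have h0 : (0:ℝ) ∈ Icc (0:ℝ) 1 := ⟨le_refl _, zero_le_one⟩
  have h1 : (1:ℝ) ∈ Icc (0:ℝ) 1 := ⟨zero_le_one, le_refl _⟩
  refine ⟨?_, ?_⟩
  · rw [← hf.map_zero]; exact hf.strictMono.monotoneOn h0 hx hx.1
  · rw [← hf.map_one]; exact hf.strictMono.monotoneOn hx h1 hx.2

/-- The structure formula: on the dyadic interval number `k` of level `n`, the function `f` is an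
affine copy of `phi (state)` of `f`. -/
theorem IsDeRham.formula (hlam : 0 < lam) (hgam : 1 < gam) (hq : 0 < q) {f : ℝ → ℝ}
    (hf : IsDeRham lam gam q f) (n : ℕ) :
    ∀ k : ℕ, k < 2 ^ n → ∀ x ∈ Icc (0:ℝ) 1,
      f ((k + x) / 2 ^ n) = f (k / 2 ^ n) + ms lam gam q n k * phi (st lam gam q n k) (f x) := by
  induction n with
  | zero =>
    intro k hk x hx
    have hk0 : k = 0 := by simpa using hk
    subst hk0
    simp [ms, st, phi, hf.map_zero]
  | succ n ih =>
    intro k hk x hx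
    obtain ⟨k', hk' | hk'⟩ := Nat.even_or_odd' k
    · subst hk'
      have hk2 : k' < 2 ^ n := by rw [pow_succ] at hk; omega
      have e1 : (((2 * k' : ℕ) : ℝ) + x) / 2 ^ (n + 1) = ((k' : ℝ) + x / 2) / 2 ^ n := by
        push_cast; rw [pow_succ]; field_simp
      have e2 : ((2 * k' : ℕ) : ℝ) / 2 ^ (n + 1) = (k' : ℝ) / 2 ^ n := by
        push_cast; rw [pow_succ]; field_simp
      have hx2 : x / 2 ∈ Icc (0:ℝ) 1 := ⟨by linarith [hx.1], by linarith [hx.2]⟩
      have hy := st_gt (lam := lam) (gam := gam) (q := q) hlam hgam hq n k'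
      have hfx := hf.mem_Icc hx
      rw [e1, e2, ih k' hk2 _ hx2, hf.eq_zero x hx, ms_even, st_even,
        phi_F0 hlam hgam hy hfx.1 hfx.2]
      ring
    · subst hk'
      have hk2 : k' < 2 ^ n := by rw [pow_succ] at hk; omega
      have e1 : (((2 * k' + 1 : ℕ) : ℝ) + x) / 2 ^ (n + 1) = ((k' : ℝ) + (x + 1) / 2) / 2 ^ n := by
        push_cast; rw [pow_succ]; field_simp; ring
      have e2 : ((2 * k' + 1 : ℕ) : ℝ) / 2 ^ (n + 1) = ((k' : ℝ) + (0 + 1) / 2) / 2 ^ n := by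
        push_cast; rw [pow_succ]; field_simp; ring
      have hx2 : (x + 1) / 2 ∈ Icc (0:ℝ) 1 := ⟨by linarith [hx.1], by linarith [hx.2]⟩
      have h00 : (0:ℝ) ∈ Icc (0:ℝ) 1 := ⟨le_refl _, zero_le_one⟩
      have hx0 : ((0:ℝ) + 1) / 2 ∈ Icc (0:ℝ) 1 := by norm_num
      have hy := st_gt (lam := lam) (gam := gam) (q := q) hlam hgam hq n k'
      have hfx := hf.mem_Icc hx
      rw [e1, e2, ih k' hk2 _ hx2, ih k' hk2 _ hx0, hf.eq_one x hx, hf.eq_one 0 h00, hf.map_zero,
        ms_odd, st_odd, phi_F1 hgam hq hy hfx.1 hfx.2, phi_F1_zero hgam hy]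
      ring

theorem IsDeRham.diff (hlam : 0 < lam) (hgam : 1 < gam) (hq : 0 < q) {f : ℝ → ℝ}
    (hf : IsDeRham lam gam q f) (n k : ℕ) (hk : k < 2 ^ n) :
    f ((k + 1) / 2 ^ n) - f (k / 2 ^ n) = ms lam gam q n k := by
  have h1 : (1:ℝ) ∈ Icc (0:ℝ) 1 := ⟨zero_le_one, le_refl _⟩
  rw [hf.formula hlam hgam hq n k hk 1 h1, hf.map_one, phi_one (st_gt hlam hgam hq n k)]
  ring

/-- Dyadic intervals. -/
def dy (n : ℕ) (k : ℤ) : Set ℝ := Ico ((k : ℝ) / 2 ^ n) (((k : ℝ) + 1) / 2 ^ n)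

theorem measure_dy (hlam : 0 < lam) (hgam : 1 < gam) (hq : 0 < q) {f : ℝ → ℝ}
    (hf : IsDeRham lam gam q f) {μ : Measure ℝ} (hμ : IsDeRhamMeasure f μ) (n k : ℕ)
    (hk : k < 2 ^ n) : μ (dy n k) = ENNReal.ofReal (ms lam gam q n k) := by
  have := hμ.prob
  have hp : (0:ℝ) < 2 ^ n := by positivity
  have hk' : ((k:ℝ) + 1) ≤ 2 ^ n := by exact_mod_cast hk
  have hk0 : (0:ℝ) ≤ (k:ℝ) := Nat.cast_nonneg k
  have ha : (k:ℝ) / 2 ^ n ∈ Icc (0:ℝ) 1 :=
    ⟨by positivity, by rw [div_le_one hp]; linarith⟩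
  have hb : ((k:ℝ) + 1) / 2 ^ n ∈ Icc (0:ℝ) 1 :=
    ⟨by positivity, by rw [div_le_one hp]; linarith⟩
  have hab : (k:ℝ) / 2 ^ n ≤ ((k:ℝ) + 1) / 2 ^ n := by gcongr; linarith
  have hdiff : dy n k = Ico 0 (((k:ℝ) + 1) / 2 ^ n) \ Ico 0 ((k:ℝ) / 2 ^ n) := by
    ext x
    simp only [dy, mem_Ico, mem_sdiff, Int.cast_natCast]
    constructor
    · rintro ⟨h1, h2⟩
      exact ⟨⟨ha.1.trans h1, h2⟩, fun h => absurd h.2 (not_lt.mpr h1)⟩
    · rintro ⟨⟨h1, h2⟩, h3⟩
      exact ⟨not_lt.mp fun h => h3 ⟨h1, h⟩, h2⟩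
  rw [hdiff, measure_sdiff (Ico_subset_Ico_right hab) measurableSet_Ico.nullMeasurableSet
    (measure_ne_top _ _), hμ.cdf _ ha, hμ.cdf _ hb, ← ENNReal.ofReal_sub _ (hf.mem_Icc ha).1,
    hf.diff hlam hgam hq n k hk]

end Pool.Agent.Lib.MP_19f6dc_an
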